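import Pool.Agent.R905.RF.Geo

/-!
# The dimension of proper closed subvarieties of affine space
-/

set_option autoImplicit false
set_option linter.all false

open AlgebraicGeometry CategoryTheory TopologicalSpace

namespace Pool.Agent.R905.RF

lemma dim_lt_of_closed {X Y : Type} [TopologicalSpace X] [TopologicalSpace Y] [IrreducibleSpace Y]
    {f : X → Y} (hf : Topology.IsClosedEmbedding f) (hne : Set.range f ≠ Set.univ) {d : ℕ}
    (hd : topologicalKrullDim Y ≤ ((d + 1 : ℕ) : WithBot ℕ∞)) :
    topologicalKrullDim X ≤ d := by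
  refine iSup_le fun p => ?_
  let q := p.map _ (TopologicalSpace.IrreducibleCloseds.map_strictMono_of_isInducing hf.isInducing)
  let t : IrreducibleCloseds Y := ⟨Set.univ, IrreducibleSpace.isIrreducible_univ Y, isClosed_univ⟩
  have hlt : q.last < t := by
    have hle : q.last ≤ t := fun x _ => trivial
    refine lt_of_le_of_ne hle ?_
    intro h
    apply hne
    have h1 : (q.last : Set Y) = Set.univ := by rw [h]; rfl
    have h2 : (q.last : Set Y) ⊆ Set.range f := by
      rw [LTSeries.last_map]
      change closure (f '' _) ⊆ Set.range f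
      exact closure_minimal (Set.image_subset_range _ _) hf.isClosed_range
    exact Set.eq_univ_of_univ_subset (h1 ▸ h2)
  have h := Order.LTSeries.length_le_krullDim (q.snoc t hlt)
  have h' : ((p.length + 1 : ℕ) : WithBot ℕ∞) ≤ ((d + 1 : ℕ) : WithBot ℕ∞) := by
    refine le_trans ?_ (h.trans hd)
    exact le_of_eq (by congr 1)
  have h'' : p.length ≤ d := by
    have : p.length + 1 ≤ d + 1 := by exact_mod_cast h'
    omega
  exact_mod_cast h''

lemma dim_affineSpace_closed {F : Type} [Field F] (d : ℕ) (W : Var F)
    (w : W.Hom (affineSpace F (d + 1))) (hw : w.Closed) (hne : w.image ≠ Set.univ) :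
    topologicalKrullDim W.sch ≤ d := by
  haveI : IsClosedImmersion w.mor := hw
  haveI : IrreducibleSpace (PrimeSpectrum (MvPolynomial (Fin (d + 1)) F)) :=
    PrimeSpectrum.irreducibleSpace
  haveI : IrreducibleSpace (affineSpace F (d + 1)).sch :=
    inferInstanceAs (IrreducibleSpace (PrimeSpectrum (MvPolynomial (Fin (d + 1)) F)))
  refine dim_lt_of_closed w.mor.isClosedEmbedding hne ?_
  change topologicalKrullDim (PrimeSpectrum (MvPolynomial (Fin (d + 1)) F)) ≤ _
  rw [PrimeSpectrum.topologicalKrullDim_eq_ringKrullDim,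
    MvPolynomial.ringKrullDim_of_isNoetherianRing, ringKrullDim_eq_zero_of_field, zero_add,
    Nat.card_eq_fintype_card, Fintype.card_fin]

end Pool.Agent.R905.RF
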