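import Mathlib

/-!
# Varieties over a finite field and their `ℓ`-adic Borel–Moore homology: definitions
-/

set_option autoImplicit false

open AlgebraicGeometry CategoryTheory

namespace Pool.Agent.R905.RF

/-- A variety over the field `F` (in the weak sense): a reduced separated scheme of finite type. -/
structure Var (F : Type) [Field F] where
  /-- the scheme -/
  sch : Scheme.{0}
  /-- the structure morphism -/
  str : sch ⟶ Spec (.of F)
  [finiteType : LocallyOfFiniteType str]
  [quasiCompact : QuasiCompact str]
  [separated : IsSeparated str]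
  [reduced : IsReduced sch]

attribute [instance] Var.finiteType Var.quasiCompact Var.separated Var.reduced

variable {F : Type} [Field F]

/-- A morphism of varieties over `F`. -/
structure Var.Hom (X Y : Var F) where
  /-- the morphism of schemes -/
  mor : X.sch ⟶ Y.sch
  comm : mor ≫ Y.str = X.str

/-- The composition of morphisms. -/
def Var.Hom.comp {X Y Z : Var F} (f : X.Hom Y) (g : Y.Hom Z) : X.Hom Z :=
  ⟨f.mor ≫ g.mor, by rw [Category.assoc, g.comm, f.comm]⟩

/-- A closed immersion. -/
abbrev Var.Hom.Closed {X Y : Var F} (f : X.Hom Y) : Prop := IsClosedImmersion f.mor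

/-- An open immersion. -/
abbrev Var.Hom.Open {X Y : Var F} (f : X.Hom Y) : Prop := IsOpenImmersion f.mor

/-- The image in the underlying space. -/
def Var.Hom.image {X Y : Var F} (f : X.Hom Y) : Set Y.sch := Set.range f.mor

/-- `i : Z → X` is a closed immersion and `j : U → X` an open immersion onto the complement. -/
structure Complementary {Z X U : Var F} (i : Z.Hom X) (j : U.Hom X) : Prop where
  closed : i.Closed
  opn : j.Open
  compl : i.image = (j.image)ᶜ

/-- The affine space of dimension `n` over `F`. -/
noncomputable def affineSpace (F : Type) [Field F] (n : ℕ) : Var F :=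
  letI : LocallyOfFiniteType
      (Spec.map (CommRingCat.ofHom (algebraMap F (MvPolynomial (Fin n) F)))) := by
    rw [HasRingHomProperty.Spec_iff (P := @LocallyOfFiniteType)]
    change (algebraMap F (MvPolynomial (Fin n) F)).FiniteType
    rw [RingHom.finiteType_algebraMap]
    infer_instance
  ⟨Spec (.of (MvPolynomial (Fin n) F)),
    Spec.map (CommRingCat.ofHom (algebraMap F (MvPolynomial (Fin n) F)))⟩

/-- Chow groups of varieties over `F`: the groups `CH X a = CH_a(X)` with push-forward for closed
immersions and restriction for open immersions. -/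
structure ChowGroups (F : Type) [Field F] where
  /-- `CH_a(X)` -/
  CH : Var F → ℕ → Type
  [grp : ∀ X a, AddCommGroup (CH X a)]
  /-- push-forward of cycles for closed immersions -/
  pushCH : ∀ {Z X : Var F} (i : Z.Hom X), i.Closed → ∀ a, CH Z a →+ CH X a
  /-- restriction of cycles for open immersions -/
  resCH : ∀ {U X : Var F} (j : U.Hom X), j.Open → ∀ a, CH X a →+ CH U a

/-- `ℓ`-adic Borel–Moore homology of varieties over a finite field `F`, where `K = ℚ_ℓ`: the spaces
`E X m r = H_m^{BM}(X̄, ℚ_ℓ)(-r)`, that is the dual of `H^m_c(X̄, ℚ_ℓ)(r)`, which is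
`H^{2d-m}(X̄, ℚ_ℓ(d-r))` if `X` is smooth of dimension `d`, with the (geometric) Frobenius,
push-forward for closed immersions, restriction for open immersions, and boundary homomorphisms. -/
structure BorelMoore (F : Type) [Field F] (K : Type) [Field K] where
  /-- `H_m^{BM}(X̄, ℚ_ℓ)(-r)` -/
  E : Var F → ℤ → ℤ → Type
  [egrp : ∀ X m r, AddCommGroup (E X m r)]
  [emod : ∀ X m r, Module K (E X m r)]
  [efin : ∀ X m r, Module.Finite K (E X m r)]
  /-- the Frobenius -/
  frob : ∀ X m r, E X m r →ₗ[K] E X m r
  /-- push-forward in homology for closed immersions -/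
  push : ∀ {Z X : Var F} (i : Z.Hom X), i.Closed → ∀ m r, E Z m r →ₗ[K] E X m r
  /-- restriction in homology for open immersions -/
  res : ∀ {U X : Var F} (j : U.Hom X), j.Open → ∀ m r, E X m r →ₗ[K] E U m r
  /-- the boundary homomorphism `H_m(U) → H_{m'}(Z)`, `m = m' + 1`, of the localization sequence -/
  bd : ∀ {Z X U : Var F} (i : Z.Hom X) (j : U.Hom X), Complementary i j →
    ∀ m m' r : ℤ, m = m' + 1 → E U m r →ₗ[K] E Z m' r

/-- Chow groups and `ℓ`-adic Borel–Moore homology, with the cycle classes
`cl : CH_a(X) → H_{2a}^{BM}(X̄, ℚ_ℓ)(-a)`. -/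
structure Theory (F : Type) [Field F] (K : Type) [Field K] extends ChowGroups F,
    BorelMoore F K where
  /-- the cycle classes -/
  cl : ∀ X (a : ℕ), CH X a →+ E X (2 * a) a

attribute [instance] ChowGroups.grp BorelMoore.egrp BorelMoore.emod BorelMoore.efin

namespace Theory

variable {K : Type} [Field K] (T : Theory F K)

/-- `e` is in the generalized eigenspace of the Frobenius for the eigenvalue one. -/
def Gen {X : Var F} {m r : ℤ} (e : T.E X m r) : Prop :=
  e ∈ Module.End.maxGenEigenspace (T.frob X m r) 1

/-- `e` is a `K`-linear combination of cycle classes. -/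
def Algebraic {X : Var F} {a : ℕ} (e : T.E X (2 * a) a) : Prop :=
  e ∈ Submodule.span K (Set.range (T.cl X a))

/-- Push-forward is compatible with the Frobenius. -/
def FrobPush : Prop :=
  ∀ {Z X : Var F} (i : Z.Hom X) (h : i.Closed) m r e,
    T.push i h m r (T.frob Z m r e) = T.frob X m r (T.push i h m r e)

/-- Restriction is compatible with the Frobenius. -/
def FrobRes : Prop :=
  ∀ {U X : Var F} (j : U.Hom X) (h : j.Open) m r e,
    T.res j h m r (T.frob X m r e) = T.frob U m r (T.res j h m r e)

/-- The boundary is compatible with the Frobenius. -/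
def FrobBd : Prop :=
  ∀ {Z X U : Var F} (i : Z.Hom X) (j : U.Hom X) (h : Complementary i j) (m m' r : ℤ)
    (hm : m = m' + 1) e,
    T.bd i j h m m' r hm (T.frob U m r e) = T.frob Z m' r (T.bd i j h m m' r hm e)

/-- Everything is compatible with the Frobenius. -/
structure FrobCompatible : Prop where
  push : T.FrobPush
  res : T.FrobRes
  bd : T.FrobBd
  cl : ∀ X (a : ℕ) z, T.frob X (2 * a) a (T.cl X a z) = T.cl X a z

/-- Functoriality of restriction. -/
def ResComp : Prop :=
  ∀ {X Y Z : Var F} (f : X.Hom Y) (g : Y.Hom Z) (hf : f.Open) (hg : g.Open)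
    (h : (f.comp g).Open) m r e,
    T.res (f.comp g) h m r e = T.res f hf m r (T.res g hg m r e)

/-- Functoriality of the push-forward of cycles. -/
def PushComp : Prop :=
  ∀ {X Y Z : Var F} (f : X.Hom Y) (g : Y.Hom Z) (hf : f.Closed) (hg : g.Closed)
    (h : (f.comp g).Closed) a z,
    T.pushCH (f.comp g) h a z = T.pushCH g hg a (T.pushCH f hf a z)

/-- Compatibility of cycle classes with push-forward. -/
def ClPush : Prop :=
  ∀ {Z X : Var F} (i : Z.Hom X) (h : i.Closed) (a : ℕ) z,
    T.push i h (2 * a) a (T.cl Z a z) = T.cl X a (T.pushCH i h a z)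

/-- Compatibility of cycle classes with restriction. -/
def ClRes : Prop :=
  ∀ {U X : Var F} (j : U.Hom X) (h : j.Open) (a : ℕ) z,
    T.res j h (2 * a) a (T.cl X a z) = T.cl U a (T.resCH j h a z)

/-- Functoriality, the compatibility of the cycle classes with push-forward and restriction, and the
extension of cycles from open subvarieties. -/
structure Functorial : Prop where
  res : T.ResComp
  pushCH : T.PushComp
  cl_push : T.ClPush
  cl_res : T.ClRes
  extend : ∀ {U X : Var F} (j : U.Hom X) (h : j.Open) a, Function.Surjective (T.resCH j h a)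

/-- Exactness of `H_m(Z) → H_m(X) → H_m(U)`. -/
def ExactRes : Prop :=
  ∀ {Z X U : Var F} (i : Z.Hom X) (j : U.Hom X) (h : Complementary i j) m r e,
    T.res j h.opn m r e = 0 ↔ ∃ z, T.push i h.closed m r z = e

/-- Exactness of `H_m(X) → H_m(U) → H_{m-1}(Z)`. -/
def ExactBd : Prop :=
  ∀ {Z X U : Var F} (i : Z.Hom X) (j : U.Hom X) (h : Complementary i j) (m m' r : ℤ)
    (hm : m = m' + 1) e,
    T.bd i j h m m' r hm e = 0 ↔ ∃ x, T.res j h.opn m r x = e

/-- Exactness of `H_m(U) → H_{m-1}(Z) → H_{m-1}(X)`. -/
def ExactPush : Prop :=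
  ∀ {Z X U : Var F} (i : Z.Hom X) (j : U.Hom X) (h : Complementary i j) (m m' r : ℤ)
    (hm : m = m' + 1) z,
    T.push i h.closed m' r z = 0 ↔ ∃ e, T.bd i j h m m' r hm e = z

/-- The boundary is compatible with restriction to an open subvariety `X'` of `X`. -/
def BdRes : Prop :=
  ∀ {Z X U Z' X' U' : Var F} (i : Z.Hom X) (j : U.Hom X) (h : Complementary i j)
    (i' : Z'.Hom X') (j' : U'.Hom X') (h' : Complementary i' j')
    (z : Z'.Hom Z) (x : X'.Hom X) (u : U'.Hom U) (hz : z.Open) (_ : x.Open) (hu : u.Open),
    i'.comp x = z.comp i → j'.comp x = u.comp j → ∀ (m m' r : ℤ) (hm : m = m' + 1) e,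
    T.bd i' j' h' m m' r hm (T.res u hu m r e) = T.res z hz m' r (T.bd i j h m m' r hm e)

/-- The boundary is compatible with enlarging the closed subvariety `Z` of `X` to `Z'`. -/
def BdPush : Prop :=
  ∀ {Z X U Z' U' : Var F} (i : Z.Hom X) (j : U.Hom X) (h : Complementary i j)
    (i' : Z'.Hom X) (j' : U'.Hom X) (h' : Complementary i' j')
    (z : Z.Hom Z') (u : U'.Hom U) (hz : z.Closed) (hu : u.Open),
    z.comp i' = i → u.comp j = j' → ∀ (m m' r : ℤ) (hm : m = m' + 1) e,
    T.bd i' j' h' m m' r hm (T.res u hu m r e) = T.push z hz m' r (T.bd i j h m m' r hm e)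

/-- The localization sequences `H_m(Z) → H_m(X) → H_m(U) → H_{m-1}(Z) → H_{m-1}(X)` are exact, and the
boundary is compatible with restriction to open subvarieties of `X` and with enlarging `Z`. -/
structure Localization : Prop where
  exact_res : T.ExactRes
  exact_bd : T.ExactBd
  exact_push : T.ExactPush
  bd_res : T.BdRes
  bd_push : T.BdPush

/-- If `a + 2 ≤ n`, each cycle of dimension `a` on a closed subvariety `W ≠ 𝔸^n` of `𝔸^n` is rationally
equivalent to zero on some larger closed subvariety `W' ≠ 𝔸^n` (as `CH_a(𝔸^n) = 0`, and rational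
equivalences between such cycles are given by subvarieties of dimension `a + 1`). -/
def AffineCycles : Prop :=
  ∀ (n a : ℕ), a + 2 ≤ n → ∀ (W : Var F) (w : W.Hom (affineSpace F n)), w.Closed →
    w.image ≠ Set.univ → ∀ z : T.CH W a, ∃ (W' : Var F) (w' : W'.Hom (affineSpace F n))
      (c : W.Hom W') (h : c.Closed), w'.Closed ∧ w'.image ≠ Set.univ ∧ c.comp w' = w ∧
        T.pushCH c h a z = 0

/-- Classical facts on the homology of varieties and on the Chow groups of affine space:
* the weights of `H_{2a-1}^{BM}(X̄, ℚ_ℓ)(-a)` are `≥ 1` (Deligne), so that `1` is not an eigenvalue;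
* if `dim X ≤ a`, the generalized eigenspace for the eigenvalue one on `H_{2a}^{BM}(X̄, ℚ_ℓ)(-a)` is
  spanned by cycle classes (the classes of the irreducible components of dimension `a`);
* `H_m^{BM}(𝔸^n) = 0` for `m ≠ 2n`;
* cycles in affine space are rationally equivalent to zero. -/
structure Classical : Prop where
  weight : ∀ (X : Var F) (a : ℕ) (e : T.E X (2 * a - 1) a), T.Gen e → e = 0
  top : ∀ (X : Var F) (a : ℕ), topologicalKrullDim X.sch ≤ a →
    ∀ e : T.E X (2 * a) a, T.Gen e → T.Algebraic e
  affine : ∀ (n : ℕ) (m r : ℤ), m ≠ 2 * n → ∀ e : T.E (affineSpace F n) m r, e = 0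
  cycles : T.AffineCycles

/-- The formal properties of Chow groups and of `ℓ`-adic Borel–Moore homology which are used. -/
structure IsBorelMoore : Prop where
  frob : T.FrobCompatible
  functorial : T.Functorial
  localization : T.Localization
  classical : T.Classical

/-- There are no invariants of the Frobenius other than `0` in `H_m^{BM}(-)(-r)` of the generic points
of `X`: each invariant class on a dense open subvariety vanishes on a smaller one. For `X` irreducible
of dimension `d` this says `H^{2d-m}(F_0 X̄, ℚ_ℓ(d-r))^G = 0`. -/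
def NoGenericInvariants (X : Var F) (m r : ℤ) : Prop :=
  ∀ (U : Var F) (j : U.Hom X), j.Open → Nonempty U.sch → ∀ e : T.E U m r, T.frob U m r e = e →
    ∃ (U' : Var F) (j' : U'.Hom U) (h : j'.Open), Nonempty U'.sch ∧ T.res j' h m r e = 0

end Theory

/-- The image of `i : V → B` is a maximal element of the set of irreducible closed subsets `≠ B` (for
`V` irreducible and `B` an open subvariety of affine space: `V` has codimension one). -/
def IsHypersurface {V B : Var F} (i : V.Hom B) : Prop :=
  IsIrreducible i.image ∧ i.image ≠ Set.univ ∧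
    ∀ T : Set B.sch, IsClosed T → IsIrreducible T → i.image ⊆ T → T = i.image ∨ T = Set.univ

/-- Each irreducible variety `X` of dimension `d` over `F` is birational to a hypersurface in `𝔸^{d+1}`
(a classical fact, for `F` perfect): each nonempty open subvariety of `X` contains a nonempty open
subvariety `V` which is a hypersurface in an open subvariety `B` of `𝔸^{d+1}`. -/
def HypersurfaceModels (F : Type) [Field F] : Prop :=
  ∀ X : Var F, IrreducibleSpace X.sch → ∃ d : ℕ, topologicalKrullDim X.sch = d ∧
    ∀ (U : Var F) (j : U.Hom X), j.Open → Nonempty U.sch →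
      ∃ (V : Var F) (v : V.Hom U) (B : Var F) (b : B.Hom (affineSpace F (d + 1))) (i : V.Hom B),
        v.Open ∧ Nonempty V.sch ∧ b.Open ∧ i.Closed ∧ IsHypersurface i

namespace Theory

variable {K : Type} [Field K] (T : Theory F K)

/-- `H^{2(n-a)-1}(F_0 𝔸^n, ℚ_ℓ(n-a))^G = 0` for `a + 2 ≤ n ≤ N + 1`: the rational function fields. -/
def RationalFunctionFields (a N : ℕ) : Prop :=
  ∀ n : ℕ, a + 2 ≤ n → n ≤ N + 1 → T.NoGenericInvariants (affineSpace F n) (2 * a + 1) a

/-- `H^{2(d-a)}(F_0 X̄, ℚ_ℓ(d-a))^G = 0` for all irreducible varieties `X` of dimension `d` with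
`a < d ≤ N`. -/
def FunctionFields (a N : ℕ) : Prop :=
  ∀ X : Var F, IrreducibleSpace X.sch → ∀ d : ℕ, topologicalKrullDim X.sch = d → a < d → d ≤ N →
    T.NoGenericInvariants X (2 * a) a

/-- For all varieties `X` of dimension at most `N`, the generalized eigenspace of the Frobenius for the
eigenvalue one on `H_{2a}^{BM}(X̄, ℚ_ℓ)(-a)` is spanned by cycle classes. -/
def AllVarieties (a N : ℕ) : Prop :=
  ∀ X : Var F, topologicalKrullDim X.sch ≤ N → ∀ e : T.E X (2 * a) a, T.Gen e → T.Algebraic e

/-- The Tate conjecture for cycles of dimension `a`, and the semisimplicity of the eigenvalue one, for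
the varieties of dimension at most `N` in the class `S`. -/
def TateSemisimple (S : Var F → Prop) (a N : ℕ) : Prop :=
  ∀ X : Var F, S X → topologicalKrullDim X.sch ≤ N →
    (∀ e : T.E X (2 * a) a, T.frob X (2 * a) a e = e → T.Algebraic e) ∧
      ∀ e : T.E X (2 * a) a, T.Gen e → T.frob X (2 * a) a e = e

/-- Each variety `X` of dimension at most `N` is dominated by a variety `Y` of dimension at most `N` in
the class `S`: there is a homomorphism from the homology of `Y` to that of `X` which maps cycle classes
to combinations of cycle classes and the generalized eigenspace for the eigenvalue one onto that of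
`X`. For the class of smooth projective varieties this follows from the theorems of Nagata and de Jong
and from the theory of weights: take an alteration `Y → X'` of a compactification `X'` of `X`. -/
def Dominating (S : Var F → Prop) (a N : ℕ) : Prop :=
  ∀ X : Var F, topologicalKrullDim X.sch ≤ N → ∃ Y : Var F, S Y ∧ topologicalKrullDim Y.sch ≤ N ∧
    ∃ φ : T.E Y (2 * a) a →ₗ[K] T.E X (2 * a) a, (∀ z : T.CH Y a, T.Algebraic (φ (T.cl Y a z))) ∧
      ∀ e : T.E X (2 * a) a, T.Gen e → ∃ e', T.Gen e' ∧ φ e' = e

end Theory

end Pool.Agent.R905.RF
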