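import Pool.Agent.R905.RF.Defs

/-!
# Motivic Borel–Moore homology: definitions
-/

set_option autoImplicit false

open AlgebraicGeometry CategoryTheory

namespace Pool.Agent.R905.RF

variable {F : Type} [Field F]

/-- Rational motivic Borel–Moore homology of the varieties over the field `F`:
`E X m r = H_m^{BM}(X, ℚ(r)) = CH_r(X, m - 2r)_ℚ` (higher Chow groups), which is
`H^{2d-m}(X, ℚ(d-r)) = CH^{d-r}(X, m - 2r)_ℚ` if `X` is smooth of dimension `d`, with push-forward for
closed immersions, restriction for open immersions, and boundary homomorphisms. -/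
structure Motivic (F : Type) [Field F] where
  /-- `H_m^{BM}(X, ℚ(r))` -/
  E : Var F → ℤ → ℤ → Type
  [egrp : ∀ X m r, AddCommGroup (E X m r)]
  /-- push-forward for closed immersions -/
  push : ∀ {Z X : Var F} (i : Z.Hom X), i.Closed → ∀ m r, E Z m r →+ E X m r
  /-- restriction for open immersions -/
  res : ∀ {U X : Var F} (j : U.Hom X), j.Open → ∀ m r, E X m r →+ E U m r
  /-- the boundary homomorphism `H_m(U) → H_{m'}(Z)`, `m = m' + 1`, of the localization sequence -/
  bd : ∀ {Z X U : Var F} (i : Z.Hom X) (j : U.Hom X), Complementary i j →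
    ∀ m m' r : ℤ, m = m' + 1 → E U m r →+ E Z m' r

attribute [instance] Motivic.egrp

namespace Motivic

variable (T : Motivic F)

/-- Functoriality of restriction. -/
def ResComp : Prop :=
  ∀ {X Y Z : Var F} (f : X.Hom Y) (g : Y.Hom Z) (hf : f.Open) (hg : g.Open)
    (h : (f.comp g).Open) m r e,
    T.res (f.comp g) h m r e = T.res f hf m r (T.res g hg m r e)

/-- Exactness of `H_m(Z) → H_m(X) → H_m(U)`. -/
def ExactRes : Prop :=
  ∀ {Z X U : Var F} (i : Z.Hom X) (j : U.Hom X) (h : Complementary i j) m r e,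
    T.res j h.opn m r e = 0 ↔ ∃ z, T.push i h.closed m r z = e

/-- Exactness of `H_m(X) → H_m(U) → H_{m-1}(Z)`. -/
def ExactBd : Prop :=
  ∀ {Z X U : Var F} (i : Z.Hom X) (j : U.Hom X) (h : Complementary i j) (m m' r : ℤ)
    (hm : m = m' + 1) e,
    T.bd i j h m m' r hm e = 0 ↔ ∃ x, T.res j h.opn m r x = e

/-- Exactness of `H_m(U) → H_{m-1}(Z) → H_{m-1}(X)`. -/
def ExactPush : Prop :=
  ∀ {Z X U : Var F} (i : Z.Hom X) (j : U.Hom X) (h : Complementary i j) (m m' r : ℤ)
    (hm : m = m' + 1) z,
    T.push i h.closed m' r z = 0 ↔ ∃ e, T.bd i j h m m' r hm e = z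

/-- The boundary is compatible with restriction to an open subvariety `X'` of `X`. -/
def BdRes : Prop :=
  ∀ {Z X U Z' X' U' : Var F} (i : Z.Hom X) (j : U.Hom X) (h : Complementary i j)
    (i' : Z'.Hom X') (j' : U'.Hom X') (h' : Complementary i' j')
    (z : Z'.Hom Z) (x : X'.Hom X) (u : U'.Hom U) (hz : z.Open) (_ : x.Open) (hu : u.Open),
    i'.comp x = z.comp i → j'.comp x = u.comp j → ∀ (m m' r : ℤ) (hm : m = m' + 1) e,
    T.bd i' j' h' m m' r hm (T.res u hu m r e) = T.res z hz m' r (T.bd i j h m m' r hm e)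

/-- The formal properties of motivic Borel–Moore homology which are used: functoriality, the
localization sequences; the homology of the empty variety is zero; `H_m(𝔸^n) → H_m(U)` is injective for
`U` nonempty and open in `𝔸^n` (the cohomology `H^*(F, ℚ(*))` of the base field injects into the
cohomology of every nonempty smooth variety). -/
structure IsMotivic : Prop where
  res_comp : T.ResComp
  exact_res : T.ExactRes
  exact_bd : T.ExactBd
  exact_push : T.ExactPush
  bd_res : T.BdRes
  empty : ∀ (X : Var F), IsEmpty X.sch → ∀ m r (e : T.E X m r), e = 0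
  inj : ∀ (n : ℕ) (U : Var F) (j : U.Hom (affineSpace F n)) (h : j.Open), Nonempty U.sch →
    ∀ m r e, T.res j h m r e = 0 → e = 0

/-- `H^i(F_0 𝔸^n, ℚ(j)) = H^i(F, ℚ(j))` for all `n ≤ N + 1`, `i ≤ 0` and all `j`, where `F_0 𝔸^n` is the
generic point of `𝔸^n`, the spectrum of `F(x_1, ..., x_n)`: each class on a nonempty open subvariety of
`𝔸^n` coincides on a smaller one with the restriction of a class on `𝔸^n` (here `i = 2n - m`,
`j = n - r`). -/
def RationalFields (N : ℕ) : Prop :=
  ∀ n : ℕ, n ≤ N + 1 → ∀ m r : ℤ, 2 * n ≤ m → ∀ (U : Var F) (j : U.Hom (affineSpace F n))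
    (hj : j.Open), Nonempty U.sch → ∀ e : T.E U m r, ∃ (x : T.E (affineSpace F n) m r) (U' : Var F)
      (j' : U'.Hom U) (h : j'.Open), Nonempty U'.sch ∧
        T.res j' h m r (T.res j hj m r x) = T.res j' h m r e

/-- `H^i(F_0 X, ℚ(j)) = 0` for all `i < 0` and all `j`, for all irreducible varieties `X` of dimension
`d ≤ N`: each class in `H_m^{BM}(-, ℚ(r))` with `m > 2d` on a nonempty open subvariety vanishes on a
smaller one (here `i = 2d - m`, `j = d - r`). -/
def AllFields (N : ℕ) : Prop :=
  ∀ X : Var F, IrreducibleSpace X.sch → ∀ d : ℕ, topologicalKrullDim X.sch = d → d ≤ N →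
    ∀ m r : ℤ, 2 * d < m → ∀ (U : Var F) (j : U.Hom X), j.Open → Nonempty U.sch → ∀ e : T.E U m r,
      ∃ (U' : Var F) (j' : U'.Hom U) (h : j'.Open), Nonempty U'.sch ∧ T.res j' h m r e = 0

/-- `H_m^{BM}(X, ℚ(r)) = 0` for all varieties `X` in the class `S` with `dim X ≤ d ≤ N`, and all
`m > 2d`; if `X` is smooth of dimension `d`, this says `H^i(X, ℚ(j)) = 0` for all `i < 0` and all `j`. -/
def Vanishing (S : Var F → Prop) (N : ℕ) : Prop :=
  ∀ X : Var F, S X → ∀ d : ℕ, topologicalKrullDim X.sch ≤ d → d ≤ N → ∀ m r : ℤ, 2 * d < m →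
    ∀ e : T.E X m r, e = 0

/-- Each irreducible variety `X` of dimension `d ≤ N` has alterations in the class `S`: each nonempty
open subvariety of `X` contains a nonempty open subvariety `U'` with a homomorphism from the homology
of `U'` to that of `V`, injective in all degrees, where `V` is a nonempty open subvariety of an
irreducible variety `Y` in `S` of dimension at most `d`. For the class of smooth projective varieties
over a perfect field this is de Jong's theorem: the pull-back for `V → U'` finite and étale. -/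
def Alterations (S : Var F → Prop) (N : ℕ) : Prop :=
  ∀ X : Var F, IrreducibleSpace X.sch → ∀ d : ℕ, topologicalKrullDim X.sch = d → d ≤ N →
    ∀ (U : Var F) (j : U.Hom X), j.Open → Nonempty U.sch → ∃ (U' : Var F) (j' : U'.Hom U)
      (V Y : Var F) (v : V.Hom Y), j'.Open ∧ Nonempty U'.sch ∧ v.Open ∧ Nonempty V.sch ∧ S Y ∧
        IrreducibleSpace Y.sch ∧ topologicalKrullDim Y.sch ≤ d ∧
          ∀ m r, ∃ φ : T.E U' m r →+ T.E V m r, Function.Injective φ

end Motivic

/-- Each irreducible variety `X` of dimension `d` over `F` is birational to a hypersurface `H` in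
`𝔸^{d+1}` (a classical fact, for `F` perfect): each nonempty open subvariety of `X` contains a nonempty
open subvariety `V` which is also an open subvariety of `H`. -/
def BirationalModels (F : Type) [Field F] : Prop :=
  ∀ X : Var F, IrreducibleSpace X.sch → ∃ d : ℕ, topologicalKrullDim X.sch = d ∧
    ∀ (U : Var F) (j : U.Hom X), j.Open → Nonempty U.sch →
      ∃ (V : Var F) (v : V.Hom U) (H : Var F) (h : V.Hom H) (i : H.Hom (affineSpace F (d + 1))),
        v.Open ∧ Nonempty V.sch ∧ h.Open ∧ i.Closed ∧ IsHypersurface i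

end Pool.Agent.R905.RF
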