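import Pool.Agent.R905.RF.Defs

/-!
# Eigenvalues of the Frobenius and supports: definitions
-/

set_option autoImplicit false

open AlgebraicGeometry CategoryTheory

namespace Pool.Agent.R905.RF

variable {F : Type} [Field F] {K : Type} [Field K]

namespace BorelMoore

variable (T : BorelMoore F K)

/-- `e` is in the generalized eigenspace of the Frobenius for the eigenvalue `α`. -/
def Gen (α : K) {X : Var F} {m r : ℤ} (e : T.E X m r) : Prop :=
  e ∈ Module.End.maxGenEigenspace (T.frob X m r) α

/-- Push-forward is compatible with the Frobenius. -/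
def FrobPush : Prop :=
  ∀ {Z X : Var F} (i : Z.Hom X) (h : i.Closed) m r e,
    T.push i h m r (T.frob Z m r e) = T.frob X m r (T.push i h m r e)

/-- Restriction is compatible with the Frobenius. -/
def FrobRes : Prop :=
  ∀ {U X : Var F} (j : U.Hom X) (h : j.Open) m r e,
    T.res j h m r (T.frob X m r e) = T.frob U m r (T.res j h m r e)

/-- The boundary is compatible with the Frobenius. -/
def FrobBd : Prop :=
  ∀ {Z X U : Var F} (i : Z.Hom X) (j : U.Hom X) (h : Complementary i j) (m m' r : ℤ)
    (hm : m = m' + 1) e,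
    T.bd i j h m m' r hm (T.frob U m r e) = T.frob Z m' r (T.bd i j h m m' r hm e)

/-- Functoriality of restriction. -/
def ResComp : Prop :=
  ∀ {X Y Z : Var F} (f : X.Hom Y) (g : Y.Hom Z) (hf : f.Open) (hg : g.Open)
    (h : (f.comp g).Open) m r e,
    T.res (f.comp g) h m r e = T.res f hf m r (T.res g hg m r e)

/-- Functoriality of push-forward. -/
def PushComp : Prop :=
  ∀ {X Y Z : Var F} (f : X.Hom Y) (g : Y.Hom Z) (hf : f.Closed) (hg : g.Closed)
    (h : (f.comp g).Closed) m r e,
    T.push (f.comp g) h m r e = T.push g hg m r (T.push f hf m r e)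

/-- Exactness of `H_m(Z) → H_m(X) → H_m(U)`. -/
def ExactRes : Prop :=
  ∀ {Z X U : Var F} (i : Z.Hom X) (j : U.Hom X) (h : Complementary i j) m r e,
    T.res j h.opn m r e = 0 ↔ ∃ z, T.push i h.closed m r z = e

/-- Exactness of `H_m(X) → H_m(U) → H_{m-1}(Z)`. -/
def ExactBd : Prop :=
  ∀ {Z X U : Var F} (i : Z.Hom X) (j : U.Hom X) (h : Complementary i j) (m m' r : ℤ)
    (hm : m = m' + 1) e,
    T.bd i j h m m' r hm e = 0 ↔ ∃ x, T.res j h.opn m r x = e

/-- Exactness of `H_m(U) → H_{m-1}(Z) → H_{m-1}(X)`. -/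
def ExactPush : Prop :=
  ∀ {Z X U : Var F} (i : Z.Hom X) (j : U.Hom X) (h : Complementary i j) (m m' r : ℤ)
    (hm : m = m' + 1) z,
    T.push i h.closed m' r z = 0 ↔ ∃ e, T.bd i j h m m' r hm e = z

/-- The boundary is compatible with restriction to an open subvariety `X'` of `X`. -/
def BdRes : Prop :=
  ∀ {Z X U Z' X' U' : Var F} (i : Z.Hom X) (j : U.Hom X) (h : Complementary i j)
    (i' : Z'.Hom X') (j' : U'.Hom X') (h' : Complementary i' j')
    (z : Z'.Hom Z) (x : X'.Hom X) (u : U'.Hom U) (hz : z.Open) (_ : x.Open) (hu : u.Open),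
    i'.comp x = z.comp i → j'.comp x = u.comp j → ∀ (m m' r : ℤ) (hm : m = m' + 1) e,
    T.bd i' j' h' m m' r hm (T.res u hu m r e) = T.res z hz m' r (T.bd i j h m m' r hm e)

/-- The boundary is compatible with enlarging the closed subvariety `Z` of `X` to `Z'`. -/
def BdPush : Prop :=
  ∀ {Z X U Z' U' : Var F} (i : Z.Hom X) (j : U.Hom X) (h : Complementary i j)
    (i' : Z'.Hom X) (j' : U'.Hom X) (h' : Complementary i' j')
    (z : Z.Hom Z') (u : U'.Hom U) (hz : z.Closed) (hu : u.Open),
    z.comp i' = i → u.comp j = j' → ∀ (m m' r : ℤ) (hm : m = m' + 1) e,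
    T.bd i' j' h' m m' r hm (T.res u hu m r e) = T.push z hz m' r (T.bd i j h m m' r hm e)

/-- Restriction to the open subvariety `X'` of `X` commutes with push-forward from the closed subvariety
`Z` of `X`; here `Z'` is the part of `Z` in `X'`. -/
def BaseChange : Prop :=
  ∀ {Z X Z' X' : Var F} (i : Z.Hom X) (i' : Z'.Hom X') (z : Z'.Hom Z) (x : X'.Hom X)
    (hi : i.Closed) (hi' : i'.Closed) (hz : z.Open) (hx : x.Open), i'.comp x = z.comp i →
    z.image = i.mor ⁻¹' x.image → ∀ m r e,
      T.res x hx m r (T.push i hi m r e) = T.push i' hi' m r (T.res z hz m r e)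

/-- Classes on closed subvarieties of codimension at least two of affine space become zero on larger
closed subvarieties (Quillen; Bloch and Ogus): if `W ≠ 𝔸^n` is closed in `𝔸^n` and `Z` is closed in `W`
with `dim Z ≤ c`, `c + 2 ≤ n`, there is a closed `W' ≠ 𝔸^n` containing `W` such that the push-forward
`H_m(Z) → H_m(W')` is zero for all `m`. (Take `W' = W ∪ π⁻¹(π(Z))` for a projection `π : 𝔸^n → 𝔸^{n-1}`
which is finite on `Z`.) -/
def Efface : Prop :=
  ∀ (n c : ℕ), c + 2 ≤ n → ∀ (W : Var F) (w : W.Hom (affineSpace F n)), w.Closed →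
    w.image ≠ Set.univ → ∀ (Z : Var F) (z : Z.Hom W) (hz : z.Closed),
      topologicalKrullDim Z.sch ≤ c →
      ∃ (W' : Var F) (w' : W'.Hom (affineSpace F n)) (k : W.Hom W') (hk : k.Closed),
        w'.Closed ∧ w'.image ≠ Set.univ ∧ k.comp w' = w ∧
          ∀ m r (e : T.E Z m r), T.push k hk m r (T.push z hz m r e) = 0

/-- The formal properties of `ℓ`-adic Borel–Moore homology which are used: compatibility with the
Frobenius, functoriality, the localization sequences, base change, `H_m(X) = 0` for `m > 2 dim X` and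
for `X` empty, `H_m(𝔸^n) = 0` for `m ≠ 2n`, and the effacement property. -/
structure IsHomology : Prop where
  frob_push : T.FrobPush
  frob_res : T.FrobRes
  frob_bd : T.FrobBd
  res_comp : T.ResComp
  push_comp : T.PushComp
  exact_res : T.ExactRes
  exact_bd : T.ExactBd
  exact_push : T.ExactPush
  bd_res : T.BdRes
  bd_push : T.BdPush
  base_change : T.BaseChange
  empty : ∀ X : Var F, IsEmpty X.sch → ∀ m r (e : T.E X m r), e = 0
  high : ∀ (X : Var F) (d : ℕ), topologicalKrullDim X.sch ≤ d → ∀ m r : ℤ, 2 * d < m →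
    ∀ e : T.E X m r, e = 0
  affine : ∀ (n : ℕ) (m r : ℤ), m ≠ 2 * n → ∀ e : T.E (affineSpace F n) m r, e = 0
  efface : T.Efface

/-- `α` is not an eigenvalue of the Frobenius on `H_{m-1}^{BM}(X̄, ℚ_ℓ)(-r)` for any variety `X`, nor on
`H_{m+1}^{BM}(𝔸^n)(-r)`. By the theory of weights (Deligne) this holds if `α` has weight `2r - m`: the
weights in `H_{m-1}^{BM}(X̄, ℚ_ℓ)(-r)` are `≥ 2r - m + 1`, and `H_{m+1}^{BM}(𝔸^n)(-r)` is zero or has
weight `2r - m - 1`. The number `2r - m` is the lowest weight in `H_m^{BM}(X̄, ℚ_ℓ)(-r)`, and the only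
one if `X` is smooth and proper. -/
def LowestWeight (α : K) (m r : ℤ) : Prop :=
  (∀ (X : Var F) (e : T.E X (m - 1) r), T.Gen α e → e = 0) ∧
    ∀ (n : ℕ) (e : T.E (affineSpace F n) (m + 1) r), T.Gen α e → e = 0

/-- `α` is not an eigenvalue of the Frobenius on `H_m^{BM}(-)(-r)` of the generic points of `X`: each
class in the generalized eigenspace on a dense open subvariety vanishes on a smaller one. For `X`
irreducible of dimension `d` these are classes in `H^{2d-m}(F_0 X̄, ℚ_ℓ(d-r))`. -/
def NotAtGenericPoint (α : K) (X : Var F) (m r : ℤ) : Prop :=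
  ∀ (U : Var F) (j : U.Hom X), j.Open → Nonempty U.sch → ∀ e : T.E U m r, T.Gen α e →
    ∃ (U' : Var F) (j' : U'.Hom U) (h : j'.Open), Nonempty U'.sch ∧ T.res j' h m r e = 0

/-- `e` comes from a closed subvariety of dimension at most `c`. -/
def IsPush (c : ℕ) {X : Var F} {m r : ℤ} (e : T.E X m r) : Prop :=
  ∃ (Z : Var F) (i : Z.Hom X) (h : i.Closed), topologicalKrullDim Z.sch ≤ c ∧
    ∃ z, T.push i h m r z = e

/-- `e` is supported in dimension at most `c`: it is in the span of the classes which come from closed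
subvarieties of dimension at most `c`. -/
def Supported (c : ℕ) {X : Var F} {m r : ℤ} (e : T.E X m r) : Prop :=
  e ∈ Submodule.span K {x : T.E X m r | T.IsPush c x}

/-- `α` is not an eigenvalue on `H_{m+1}` of the generic point of `𝔸^n`, for `c + 2 ≤ n ≤ N + 1`. -/
def RationalFunctionFields (α : K) (m r : ℤ) (c N : ℕ) : Prop :=
  ∀ n : ℕ, c + 2 ≤ n → n ≤ N + 1 → T.NotAtGenericPoint α (affineSpace F n) (m + 1) r

/-- `α` is not an eigenvalue on `H_m` of the generic points of the irreducible varieties of dimension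
`d`, for `c < d ≤ N`. -/
def FunctionFields (α : K) (m r : ℤ) (c N : ℕ) : Prop :=
  ∀ X : Var F, IrreducibleSpace X.sch → ∀ d : ℕ, topologicalKrullDim X.sch = d → c < d → d ≤ N →
    T.NotAtGenericPoint α X m r

/-- For all `X` of dimension at most `N` in the class `S`, the generalized eigenspace for the
eigenvalue `α` on `H_m^{BM}(X̄, ℚ_ℓ)(-r)` is supported in dimension at most `c`. -/
def SupportedIn (S : Var F → Prop) (α : K) (m r : ℤ) (c N : ℕ) : Prop :=
  ∀ X : Var F, S X → topologicalKrullDim X.sch ≤ N → ∀ e : T.E X m r, T.Gen α e →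
    T.Supported c e

/-- Each variety `X` of dimension at most `N` is dominated by a variety `Y` of dimension at most `N` in
the class `S`: there is a homomorphism from the homology of `Y` to that of `X` which preserves supports
in dimension at most `c` and maps the generalized eigenspace for the eigenvalue `α` onto that of `X`.
For the class of smooth projective varieties and `α` of weight `2r - m` this follows from the theorems
of Nagata and de Jong and from the theory of weights: take an alteration `Y → X'` of a compactification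
`X'` of `X`. -/
def Dominating (S : Var F → Prop) (α : K) (m r : ℤ) (c N : ℕ) : Prop :=
  ∀ X : Var F, topologicalKrullDim X.sch ≤ N → ∃ Y : Var F, S Y ∧ topologicalKrullDim Y.sch ≤ N ∧
    ∃ φ : T.E Y m r →ₗ[K] T.E X m r, (∀ y, T.Supported c y → T.Supported c (φ y)) ∧
      ∀ e : T.E X m r, T.Gen α e → ∃ e', T.Gen α e' ∧ φ e' = e

end BorelMoore

end Pool.Agent.R905.RF
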