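import Pool.Agent.R905.RF.DefsGT

/-!
# Jordan blocks of the Frobenius at generic points: definitions
-/

set_option autoImplicit false

open AlgebraicGeometry CategoryTheory

namespace Pool.Agent.R905.RF

variable {F : Type} [Field F] {K : Type} [Field K]

namespace BorelMoore

variable (T : BorelMoore F K)

/-- The class `(φ - α)^k e`, where `φ` is the Frobenius. -/
noncomputable def shift (α : K) (k : ℕ) {X : Var F} {m r : ℤ} (e : T.E X m r) : T.E X m r :=
  ((T.frob X m r - α • 1) ^ k : Module.End K (T.E X m r)) e

/-- The class `e` on `U` vanishes on some nonempty open subvariety. -/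
def VanishesGenerically {U : Var F} {m r : ℤ} (e : T.E U m r) : Prop :=
  ∃ (U' : Var F) (j' : U'.Hom U) (h : j'.Open), Nonempty U'.sch ∧ T.res j' h m r e = 0

/-- The Jordan blocks of the Frobenius for the eigenvalues `α` in `W` on `H_m^{BM}(-)(-r)` of the
generic points of `X` have size at most `k`: for each class `e` in the generalized eigenspace for `α`
on a nonempty open subvariety, `(φ - α)^k e` vanishes on a smaller one. For `X` irreducible of
dimension `d` this is a statement on `H^{2d-m}(F_0 X̄, ℚ_ℓ(d-r))`; for `k = 1` it says that the
eigenvalues in `W` are semisimple there. -/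
def BlocksAtGenericPoint (W : Set K) (k : ℕ) (X : Var F) (m r : ℤ) : Prop :=
  ∀ (U : Var F) (j : U.Hom X), j.Open → Nonempty U.sch → ∀ α ∈ W, ∀ e : T.E U m r, T.Gen α e →
    T.VanishesGenerically (T.shift α k e)

/-- The condition on the Jordan blocks at the generic points of all irreducible varieties of dimension
`d`. -/
def BlocksOfFunctionFields (W : Set K) (k : ℕ) (m r : ℤ) (d : ℕ) : Prop :=
  ∀ X : Var F, IrreducibleSpace X.sch → topologicalKrullDim X.sch = d →
    T.BlocksAtGenericPoint W k X m r

/-- The Jordan blocks of the Frobenius on `H_m^{BM}(X̄, ℚ_ℓ)(-r)` have size at most `k`, for all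
irreducible `X` of dimension `d` in the class `S`. For `k = 1`: each generalized eigenspace is an
eigenspace, that is, the Frobenius is semisimple. -/
def Blocks (S : Var F → Prop) (k : ℕ) (m r : ℤ) (d : ℕ) : Prop :=
  ∀ X : Var F, S X → IrreducibleSpace X.sch → topologicalKrullDim X.sch = d →
    ∀ (α : K) (e : T.E X m r), T.Gen α e → T.shift α k e = 0

/-- The eigenvalues of the Frobenius on `H_m^{BM}(X̄, ℚ_ℓ)(-r)` are in `W`, for all irreducible `X` of
dimension `d` in the class `S`. For the smooth projective varieties and the set `W` of all numbers of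
weight `2r - m` this is Deligne's theorem. -/
def Pure (S : Var F → Prop) (W : Set K) (m r : ℤ) (d : ℕ) : Prop :=
  ∀ X : Var F, S X → IrreducibleSpace X.sch → topologicalKrullDim X.sch = d →
    ∀ α ∉ W, ∀ e : T.E X m r, T.Gen α e → e = 0

/-- For `X` irreducible of dimension `c + 1` in the class `S` and a class `e` on `X` in a generalized
eigenspace, `(φ - α)^k e` is zero if it is supported in dimension at most `c`. For smooth projective
surfaces, `c = 1`, `m = 2`, `k ≥ 1`, this holds as the space `A` of divisor classes in
`H^2(X̄, ℚ_ℓ(1))` is nondegenerate for the intersection form (Hodge index theorem): if `e = a + b`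
with `a` in `A` and `b` in the orthogonal complement, then `(φ - α)^k a = 0`, as `φ` has finite order
on `A`, up to the twist, and so `(φ - α)^k e = (φ - α)^k b` is in `A` only if it is zero. -/
def Splits (S : Var F → Prop) (k : ℕ) (m r : ℤ) (c : ℕ) : Prop :=
  ∀ X : Var F, S X → IrreducibleSpace X.sch → topologicalKrullDim X.sch = ((c + 1 : ℕ) : WithBot ℕ∞) →
    ∀ (α : K) (e : T.E X m r), T.Gen α e → T.Supported c (T.shift α k e) → T.shift α k e = 0

/-- Each irreducible variety `X` of dimension `d` has alterations in the class `S`: each nonempty open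
subvariety `U` of `X` contains a nonempty open subvariety `U'` with a homomorphism from the homology of
`U'` to that of a nonempty open subvariety `V` of an irreducible `Y` in `S` of dimension `d`,
compatible with the Frobenius and injective at the generic points: if the image of `e` vanishes on a
nonempty open subvariety of `V` then `e` vanishes on a nonempty open subvariety of `U'`. For the class
of smooth projective varieties this is de Jong's theorem: the pull-back for `V → U'` finite, with `U'`
and `V` smooth. -/
def Alterations (S : Var F → Prop) (m r : ℤ) (d : ℕ) : Prop :=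
  ∀ X : Var F, IrreducibleSpace X.sch → topologicalKrullDim X.sch = d →
    ∀ (U : Var F) (j : U.Hom X), j.Open → Nonempty U.sch → ∃ (U' : Var F) (j' : U'.Hom U)
      (V Y : Var F) (v : V.Hom Y), j'.Open ∧ v.Open ∧ Nonempty V.sch ∧ S Y ∧
        IrreducibleSpace Y.sch ∧ topologicalKrullDim Y.sch = d ∧
          ∃ ψ : T.E U' m r →ₗ[K] T.E V m r, (∀ e, ψ (T.frob U' m r e) = T.frob V m r (ψ e)) ∧
            ∀ e, T.VanishesGenerically (ψ e) → T.VanishesGenerically e

end BorelMoore

end Pool.Agent.R905.RF
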