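import Pool.Agent.R905.RF.Defs

/-!
# Open and closed subvarieties
-/

set_option autoImplicit false
set_option linter.all false

open AlgebraicGeometry CategoryTheory TopologicalSpace

namespace Pool.Agent.R905.RF

variable {F : Type} [Field F]

instance Var.isLocallyNoetherian (X : Var F) : IsLocallyNoetherian X.sch :=
  LocallyOfFiniteType.isLocallyNoetherian X.str

instance Var.compactSpace (X : Var F) : CompactSpace X.sch := by
  exact QuasiCompact.compactSpace_of_compactSpace X.str

instance Var.isNoetherian (X : Var F) : IsNoetherian X.sch where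

lemma isReduced_subscheme {X : Scheme.{0}} (Z : Closeds X) :
    IsReduced (Scheme.IdealSheafData.vanishingIdeal Z).subscheme := by
  have hr : ∀ U : X.affineOpens,
      ((Scheme.IdealSheafData.vanishingIdeal Z).ideal U).IsRadical := by
    intro U
    rw [Scheme.IdealSheafData.vanishingIdeal_ideal]
    exact PrimeSpectrum.isRadical_vanishingIdeal _
  have : ∀ i, IsReduced
      ((Scheme.IdealSheafData.vanishingIdeal Z).subschemeCover.openCover.X i) := by
    intro U
    change IsReduced (Spec (.of (_ ⧸ (Scheme.IdealSheafData.vanishingIdeal Z).ideal U)))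
    rw [affine_isReduced_iff]
    change _root_.IsReduced (_ ⧸ (Scheme.IdealSheafData.vanishingIdeal Z).ideal U)
    rw [← Ideal.isRadical_iff_quotient_reduced]
    exact hr U
  exact IsReduced.of_openCover _ (Scheme.IdealSheafData.vanishingIdeal Z).subschemeCover.openCover

/-- The open subvariety with a given underlying set. -/
noncomputable def openSub (X : Var F) (O : X.sch.Opens) : Var F :=
  haveI : QuasiCompact O.ι := inferInstance
  ⟨O, O.ι ≫ X.str⟩

/-- The inclusion of an open subvariety. -/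
noncomputable def openInc (X : Var F) (O : X.sch.Opens) : (openSub X O).Hom X := ⟨O.ι, rfl⟩

lemma openInc_open (X : Var F) (O : X.sch.Opens) : (openInc X O).Open :=
  inferInstanceAs (IsOpenImmersion O.ι)

lemma openInc_image (X : Var F) (O : X.sch.Opens) : (openInc X O).image = (O : Set X.sch) :=
  O.range_ι

/-- The closed subvariety with a given underlying set. -/
noncomputable def closedSub (X : Var F) (Z : Closeds X.sch) : Var F :=
  haveI := isReduced_subscheme Z
  ⟨(Scheme.IdealSheafData.vanishingIdeal Z).subscheme,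
    (Scheme.IdealSheafData.vanishingIdeal Z).subschemeι ≫ X.str⟩

/-- The inclusion of a closed subvariety. -/
noncomputable def closedInc (X : Var F) (Z : Closeds X.sch) : (closedSub X Z).Hom X :=
  ⟨(Scheme.IdealSheafData.vanishingIdeal Z).subschemeι, rfl⟩

lemma closedInc_closed (X : Var F) (Z : Closeds X.sch) : (closedInc X Z).Closed :=
  inferInstanceAs (IsClosedImmersion (Scheme.IdealSheafData.vanishingIdeal Z).subschemeι)

lemma closedInc_image (X : Var F) (Z : Closeds X.sch) : (closedInc X Z).image = (Z : Set X.sch) := by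
  change Set.range (Scheme.IdealSheafData.vanishingIdeal Z).subschemeι = _
  rw [Scheme.IdealSheafData.range_subschemeι, Scheme.IdealSheafData.coe_support_vanishingIdeal]

lemma Var.Hom.Open.isOpen {X Y : Var F} {f : X.Hom Y} (h : f.Open) : IsOpen f.image :=
  haveI : IsOpenImmersion f.mor := h
  f.mor.isOpenEmbedding.isOpen_range

lemma Var.Hom.Closed.isClosed {X Y : Var F} {f : X.Hom Y} (h : f.Closed) : IsClosed f.image :=
  haveI : IsClosedImmersion f.mor := h
  f.mor.isClosedEmbedding.isClosed_range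

/-- The complement of an open subvariety. -/
lemma exists_compl {X U : Var F} (j : U.Hom X) (hj : j.Open) :
    ∃ (Z : Var F) (i : Z.Hom X), Complementary i j := by
  refine ⟨closedSub X ⟨(j.image)ᶜ, hj.isOpen.isClosed_compl⟩, closedInc X _, closedInc_closed _ _,
    hj, closedInc_image _ _⟩

/-- The complement of a closed subvariety. -/
lemma exists_compl' {X Z : Var F} (i : Z.Hom X) (hi : i.Closed) :
    ∃ (U : Var F) (j : U.Hom X), Complementary i j := by
  refine ⟨openSub X ⟨(i.image)ᶜ, hi.isClosed.isOpen_compl⟩, openInc X _, hi, openInc_open _ _, ?_⟩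
  rw [openInc_image]
  exact (compl_compl _).symm

/-- The identity. -/
def Var.Hom.id (X : Var F) : X.Hom X := ⟨𝟙 _, Category.id_comp _⟩

lemma Var.Hom.ext' {X Y : Var F} {f g : X.Hom Y} (h : f.mor = g.mor) : f = g := by
  cases f; cases g; cases h; rfl

lemma id_open (X : Var F) : (Var.Hom.id X).Open := inferInstanceAs (IsOpenImmersion (𝟙 X.sch))

lemma id_closed (X : Var F) : (Var.Hom.id X).Closed :=
  inferInstanceAs (IsClosedImmersion (𝟙 X.sch))

lemma Var.Hom.Open.comp {X Y Z : Var F} {f : X.Hom Y} {g : Y.Hom Z} (hf : f.Open) (hg : g.Open) :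
    (f.comp g).Open := by
  haveI : IsOpenImmersion f.mor := hf
  haveI : IsOpenImmersion g.mor := hg
  exact inferInstanceAs (IsOpenImmersion (f.mor ≫ g.mor))

lemma Var.Hom.Closed.comp {X Y Z : Var F} {f : X.Hom Y} {g : Y.Hom Z} (hf : f.Closed)
    (hg : g.Closed) : (f.comp g).Closed := by
  haveI : IsClosedImmersion f.mor := hf
  haveI : IsClosedImmersion g.mor := hg
  exact inferInstanceAs (IsClosedImmersion (f.mor ≫ g.mor))

lemma image_comp {X Y Z : Var F} (f : X.Hom Y) (g : Y.Hom Z) :
    (f.comp g).image = g.mor '' f.image := by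
  change Set.range (f.mor ≫ g.mor) = g.mor '' Set.range f.mor
  rw [Scheme.Hom.comp_base, TopCat.coe_comp, Set.range_comp]

/-- The restriction of a morphism over an open subvariety. -/
noncomputable def restrict {X Y : Var F} (f : X.Hom Y) (O : Y.sch.Opens) :
    (openSub X (f.mor ⁻¹ᵁ O)).Hom (openSub Y O) :=
  ⟨f.mor ∣_ O, by
    change (f.mor ∣_ O) ≫ O.ι ≫ Y.str = (f.mor ⁻¹ᵁ O).ι ≫ X.str
    rw [← Category.assoc, morphismRestrict_ι, Category.assoc, f.comm]⟩

lemma restrict_comp {X Y : Var F} (f : X.Hom Y) (O : Y.sch.Opens) :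
    (restrict f O).comp (openInc Y O) = (openInc X (f.mor ⁻¹ᵁ O)).comp f :=
  Var.Hom.ext' (morphismRestrict_ι f.mor O)

lemma restrict_closed {X Y : Var F} (f : X.Hom Y) (hf : f.Closed) (O : Y.sch.Opens) :
    (restrict f O).Closed := by
  haveI : IsClosedImmersion f.mor := hf
  exact inferInstanceAs (IsClosedImmersion (f.mor ∣_ O))

lemma restrict_open {X Y : Var F} (f : X.Hom Y) (hf : f.Open) (O : Y.sch.Opens) :
    (restrict f O).Open := by
  haveI : IsOpenImmersion f.mor := hf
  exact inferInstanceAs (IsOpenImmersion (f.mor ∣_ O))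

lemma mem_range_morphismRestrict {X Y : Scheme.{0}} (f : X ⟶ Y) (O : Y.Opens) (y : O.toScheme) :
    y ∈ Set.range (f ∣_ O) ↔ O.ι y ∈ Set.range f := by
  constructor
  · rintro ⟨x, rfl⟩
    exact ⟨(f ⁻¹ᵁ O).ι x, by
      rw [← Scheme.Hom.comp_apply, ← morphismRestrict_ι, Scheme.Hom.comp_apply]⟩
  · rintro ⟨x, hx⟩
    have hxO : x ∈ f ⁻¹ᵁ O := by
      change f x ∈ O
      rw [hx]
      exact y.2
    have hx' : x ∈ Set.range (f ⁻¹ᵁ O).ι := by
      rw [Scheme.Opens.range_ι]
      exact hxO
    obtain ⟨x', rfl⟩ := hx'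
    refine ⟨x', O.ι.isOpenEmbedding.injective ?_⟩
    rw [← hx, ← Scheme.Hom.comp_apply, ← Scheme.Hom.comp_apply, morphismRestrict_ι]

lemma mem_restrict_image {X Y : Var F} (f : X.Hom Y) (O : Y.sch.Opens)
    (y : (openSub Y O).sch) : y ∈ (restrict f O).image ↔ (O.ι y) ∈ f.image :=
  mem_range_morphismRestrict f.mor O y

lemma restrict_complementary {X Z U : Var F} {i : Z.Hom X} {j : U.Hom X}
    (h : Complementary i j) (O : X.sch.Opens) : Complementary (restrict i O) (restrict j O) := by
  refine ⟨restrict_closed i h.closed O, restrict_open j h.opn O, ?_⟩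
  ext y
  rw [Set.mem_compl_iff, mem_restrict_image, mem_restrict_image, h.compl, Set.mem_compl_iff]

lemma exists_lift {X Y Z : Var F} (f : X.Hom Z) (g : Y.Hom Z) (hf : f.Open) (hg : g.Open)
    (h : f.image ⊆ g.image) : ∃ k : X.Hom Y, k.Open ∧ k.comp g = f := by
  haveI : IsOpenImmersion f.mor := hf
  haveI : IsOpenImmersion g.mor := hg
  have hfac := IsOpenImmersion.lift_fac g.mor f.mor h
  refine ⟨⟨IsOpenImmersion.lift g.mor f.mor h, ?_⟩, ?_, Var.Hom.ext' hfac⟩
  · rw [← g.comm, ← Category.assoc, hfac, f.comm]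
  · haveI : IsOpenImmersion (IsOpenImmersion.lift g.mor f.mor h ≫ g.mor) := by
      rw [hfac]; exact hf
    exact IsOpenImmersion.of_comp (IsOpenImmersion.lift g.mor f.mor h) g.mor

lemma exists_irreducible_open (X : Var F) (hX : Nonempty X.sch) :
    ∃ O : X.sch.Opens, IrreducibleSpace (openSub X O).sch := by
  obtain ⟨x⟩ := hX
  obtain ⟨o, ho, hne, hsub⟩ := NoetherianSpace.exists_isOpen_nonempty_subset_irreducibleComponent
    (irreducibleComponent x) (irreducibleComponent_mem_irreducibleComponents x)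
  have hirr : IsIrreducible o := ⟨hne, isIrreducible_irreducibleComponent.2.open_subset ho hsub⟩
  exact ⟨⟨o, ho⟩, Subtype.irreducibleSpace hirr⟩

/-- An open set which meets a maximal irreducible proper closed set `V`, and meets a proper closed set
`W` containing `V` only in `V`. -/
lemma exists_open_near {Y : Type} [TopologicalSpace Y] [NoetherianSpace Y] {V W : Set Y}
    (hV : IsIrreducible V)
    (hmax : ∀ T : Set Y, IsClosed T → IsIrreducible T → V ⊆ T → T = V ∨ T = Set.univ)
    (hW : IsClosed W) (hW' : W ≠ Set.univ) (hVW : V ⊆ W) :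
    ∃ O : Set Y, IsOpen O ∧ (V ∩ O).Nonempty ∧ O ∩ W ⊆ V := by
  obtain ⟨S, hSf, hSc, hSi, rfl⟩ := NoetherianSpace.exists_finite_set_isClosed_irreducible hW
  have huniv : ∀ T ∈ S, T ≠ Set.univ := by
    intro T hT h
    exact hW' (Set.eq_univ_of_univ_subset (h ▸ Set.subset_sUnion_of_mem hT))
  have hcl : IsClosed (⋃₀ (S \ {V})) := by
    rw [Set.sUnion_eq_biUnion]
    exact hSf.sdiff.isClosed_biUnion fun T hT => hSc T hT.1
  refine ⟨(⋃₀ (S \ {V}))ᶜ, hcl.isOpen_compl, ?_, ?_⟩
  · by_contra hne
    rw [Set.not_nonempty_iff_eq_empty] at hne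
    have hsub : V ⊆ ⋃₀ (S \ {V}) := by
      intro x hx
      by_contra hx'
      have : x ∈ V ∩ (⋃₀ (S \ {V}))ᶜ := ⟨hx, hx'⟩
      rw [hne] at this
      exact this
    have hfin : (S \ {V}).Finite := hSf.sdiff
    obtain ⟨T, hT, hVT⟩ := isIrreducible_iff_sUnion_isClosed.1 hV hfin.toFinset
      (fun z hz => hSc z (hfin.mem_toFinset.1 hz).1) (by rw [hfin.coe_toFinset]; exact hsub)
    have hT' := hfin.mem_toFinset.1 hT
    rcases hmax T (hSc T hT'.1) (hSi T hT'.1) hVT with h | h
    · exact hT'.2 h
    · exact huniv T hT'.1 h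
  · rintro x ⟨hx, T, hT, hxT⟩
    by_contra hxV
    refine hx ⟨T, ⟨hT, ?_⟩, hxT⟩
    rintro rfl
    exact hxV hxT

lemma dim_le_of_open {X Y : Var F} {f : X.Hom Y} (hf : f.Open) :
    topologicalKrullDim X.sch ≤ topologicalKrullDim Y.sch := by
  haveI : IsOpenImmersion f.mor := hf
  exact f.mor.isOpenEmbedding.isInducing.topologicalKrullDim_le

lemma dim_le_of_closed {X Y : Var F} {f : X.Hom Y} (hf : f.Closed) :
    topologicalKrullDim X.sch ≤ topologicalKrullDim Y.sch := by
  haveI : IsClosedImmersion f.mor := hf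
  exact f.mor.isClosedEmbedding.isInducing.topologicalKrullDim_le

end Pool.Agent.R905.RF
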