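import Pool.Agent.R905.RF.Geo
import Pool.Agent.R905.RF.Dim

/-!
# Invariant classes at generic points and the Tate conjecture: proofs
-/

set_option autoImplicit false
set_option linter.all false

open AlgebraicGeometry CategoryTheory TopologicalSpace

namespace Pool.Agent.R905.RF

section linear

variable {K : Type} [Field K] {A B : Type} [AddCommGroup A] [Module K A] [Module.Finite K A]
  [AddCommGroup B] [Module K B] [Module.Finite K B]

lemma mem_gen {φ : A →ₗ[K] A} {e : A} :
    e ∈ Module.End.maxGenEigenspace φ 1 ↔ ∃ k : ℕ, ((φ - 1) ^ k : Module.End K A) e = 0 := by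
  rw [Module.End.mem_maxGenEigenspace, one_smul]

lemma comm_pow {φ : A →ₗ[K] A} {ψ : B →ₗ[K] B} {f : A →ₗ[K] B} (h : ∀ a, f (φ a) = ψ (f a))
    (k : ℕ) (a : A) :
    f (((φ - 1) ^ k : Module.End K A) a) = ((ψ - 1) ^ k : Module.End K B) (f a) := by
  induction k generalizing a with
  | zero => simp
  | succ k ih =>
    rw [pow_succ, pow_succ]
    change f (((φ - 1) ^ k : Module.End K A) ((φ - 1 : Module.End K A) a)) =
      ((ψ - 1) ^ k : Module.End K B) ((ψ - 1 : Module.End K B) (f a))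
    rw [ih]
    congr 1
    change f (φ a - a) = ψ (f a) - f a
    rw [map_sub, h]

lemma gen_map {φ : A →ₗ[K] A} {ψ : B →ₗ[K] B} {f : A →ₗ[K] B} (h : ∀ a, f (φ a) = ψ (f a))
    {a : A} (ha : a ∈ Module.End.maxGenEigenspace φ 1) :
    f a ∈ Module.End.maxGenEigenspace ψ 1 := by
  rw [mem_gen] at ha ⊢
  obtain ⟨k, hk⟩ := ha
  exact ⟨k, by rw [← comm_pow h, hk, map_zero]⟩

lemma gen_eq_iSup (φ : A →ₗ[K] A) :
    Module.End.maxGenEigenspace φ 1 = ⨆ n, LinearMap.ker ((φ - 1) ^ n) := by
  ext e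
  rw [mem_gen]
  have hd : Directed (· ≤ ·) fun n => LinearMap.ker ((φ - 1 : Module.End K A) ^ n) := by
    refine Monotone.directed_le ?_
    intro m n hmn x hx
    obtain ⟨d, rfl⟩ := Nat.exists_eq_add_of_le hmn
    rw [LinearMap.mem_ker] at hx ⊢
    rw [add_comm, pow_add]
    change ((φ - 1 : Module.End K A) ^ d) (((φ - 1 : Module.End K A) ^ m) x) = 0
    rw [hx, map_zero]
  rw [Submodule.mem_iSup_of_directed _ hd]
  rfl

lemma gen_lift {φ : A →ₗ[K] A} {ψ : B →ₗ[K] B} {f : A →ₗ[K] B} (h : ∀ a, f (φ a) = ψ (f a))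
    {a : A} (ha : f a ∈ Module.End.maxGenEigenspace ψ 1) :
    ∃ a' ∈ Module.End.maxGenEigenspace φ 1, f a' = f a := by
  have hA := LinearMap.isCompl_iSup_ker_pow_iInf_range_pow (φ - 1 : Module.End K A)
  have hB := LinearMap.isCompl_iSup_ker_pow_iInf_range_pow (ψ - 1 : Module.End K B)
  have hmem : a ∈ (⨆ n, LinearMap.ker ((φ - 1 : Module.End K A) ^ n)) ⊔
      ⨅ n, LinearMap.range ((φ - 1 : Module.End K A) ^ n) := by
    rw [hA.sup_eq_top]; trivial
  obtain ⟨a₁, h₁, a₂, h₂, rfl⟩ := Submodule.mem_sup.1 hmem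
  rw [← gen_eq_iSup] at h₁
  refine ⟨a₁, h₁, ?_⟩
  have hc1 : f a₂ ∈ ⨆ n, LinearMap.ker ((ψ - 1 : Module.End K B) ^ n) := by
    rw [← gen_eq_iSup]
    have := Submodule.sub_mem _ ha (gen_map h h₁)
    rwa [map_add, add_sub_cancel_left] at this
  have hc2 : f a₂ ∈ ⨅ n, LinearMap.range ((ψ - 1 : Module.End K B) ^ n) := by
    rw [Submodule.mem_iInf] at h₂ ⊢
    intro n
    obtain ⟨x, hx⟩ := h₂ n
    exact ⟨f x, by rw [← comm_pow h, hx]⟩
  have h0 : f a₂ = 0 := by
    have := Submodule.mem_inf.2 ⟨hc1, hc2⟩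
    rw [hB.inf_eq_bot] at this
    exact (Submodule.mem_bot K).1 this
  rw [map_add, h0, add_zero]

lemma inv_gen {φ : A →ₗ[K] A} {e : A} (h : φ e = e) : e ∈ Module.End.maxGenEigenspace φ 1 := by
  rw [mem_gen]
  refine ⟨1, ?_⟩
  rw [pow_one]
  change φ e - e = 0
  rw [h, sub_self]

end linear

namespace Theory

variable {F : Type} [Field F] {K : Type} [Field K] {T : Theory F K}

lemma Algebraic.gen (hT : T.IsBorelMoore) {X : Var F} {a : ℕ} {e : T.E X (2 * a) a}
    (h : T.Algebraic e) : T.frob X (2 * a) a e = e := by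
  have h' : e ∈ Submodule.span K (Set.range (T.cl X a)) := h
  induction h' using Submodule.span_induction with
  | mem x hx => obtain ⟨z, rfl⟩ := hx; exact hT.frob.cl X a z
  | zero => rw [map_zero]
  | add x y hx hy ihx ihy => rw [map_add, ihx hx, ihy hy]
  | smul c x hx ih => rw [map_smul, ih hx]

lemma Algebraic.push (hT : T.IsBorelMoore) {Z X : Var F} (i : Z.Hom X) (hi : i.Closed) {a : ℕ}
    {e : T.E Z (2 * a) a} (h : T.Algebraic e) : T.Algebraic (T.push i hi (2 * a) a e) := by
  have h' : e ∈ Submodule.span K (Set.range (T.cl Z a)) := h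
  induction h' using Submodule.span_induction with
  | mem x hx =>
    obtain ⟨z, rfl⟩ := hx
    rw [hT.functorial.cl_push]
    exact Submodule.subset_span ⟨_, rfl⟩
  | zero => rw [map_zero]; exact Submodule.zero_mem _
  | add x y hx hy ihx ihy => rw [map_add]; exact Submodule.add_mem _ (ihx hx) (ihy hy)
  | smul c x hx ih => rw [map_smul]; exact Submodule.smul_mem _ _ (ih hx)

lemma Algebraic.lift (hT : T.IsBorelMoore) {U X : Var F} (j : U.Hom X) (hj : j.Open) {a : ℕ}
    {e : T.E U (2 * a) a} (h : T.Algebraic e) :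
    ∃ x : T.E X (2 * a) a, T.Algebraic x ∧ T.res j hj (2 * a) a x = e := by
  have h' : e ∈ Submodule.span K (Set.range (T.cl U a)) := h
  induction h' using Submodule.span_induction with
  | mem x hx =>
    obtain ⟨z, rfl⟩ := hx
    obtain ⟨y, rfl⟩ := hT.functorial.extend j hj a z
    exact ⟨T.cl X a y, Submodule.subset_span ⟨_, rfl⟩, hT.functorial.cl_res j hj a y⟩
  | zero => exact ⟨0, Submodule.zero_mem _, map_zero _⟩
  | add x y hx hy ihx ihy =>
    obtain ⟨x', hx', rfl⟩ := ihx hx
    obtain ⟨y', hy', rfl⟩ := ihy hy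
    exact ⟨x' + y', Submodule.add_mem _ hx' hy', map_add _ _ _⟩
  | smul c x hx ih =>
    obtain ⟨x', hx', rfl⟩ := ih hx
    exact ⟨c • x', Submodule.smul_mem _ _ hx', map_smul _ _ _⟩

/-- The generalized eigenspace vanishes at the generic points, if the invariants do. -/
lemma noGenericGen (hT : T.IsBorelMoore) {X : Var F} {m r : ℤ} (h : T.NoGenericInvariants X m r)
    {U : Var F} (j : U.Hom X) (hj : j.Open) (hU : Nonempty U.sch) (e : T.E U m r)
    (he : T.Gen e) :
    ∃ (U' : Var F) (j' : U'.Hom U) (h : j'.Open), Nonempty U'.sch ∧ T.res j' h m r e = 0 := by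
  have he' : e ∈ Module.End.maxGenEigenspace (T.frob U m r) 1 := he
  rw [mem_gen] at he'
  obtain ⟨k, hk⟩ := he'
  clear he
  induction k generalizing U with
  | zero =>
    refine ⟨U, Var.Hom.id U, id_open U, hU, ?_⟩
    have : e = 0 := by simpa using hk
    rw [this, map_zero]
  | succ k ih =>
    have hinv : T.frob U m r (((T.frob U m r - 1) ^ k : Module.End K (T.E U m r)) e) =
        ((T.frob U m r - 1) ^ k : Module.End K (T.E U m r)) e := by
      rw [pow_succ'] at hk
      change T.frob U m r (((T.frob U m r - 1) ^ k : Module.End K (T.E U m r)) e) -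
        ((T.frob U m r - 1) ^ k : Module.End K (T.E U m r)) e = 0 at hk
      exact sub_eq_zero.1 hk
    obtain ⟨U₁, j₁, h₁, hne₁, hz⟩ := h U j hj hU _ hinv
    rw [comm_pow (fun a => hT.frob.res j₁ h₁ m r a)] at hz
    obtain ⟨U₂, j₂, h₂, hne₂, hz₂⟩ := ih (j₁.comp j) (h₁.comp hj) hne₁ _ hz
    refine ⟨U₂, j₂.comp j₁, h₂.comp h₁, hne₂, ?_⟩
    rw [hT.functorial.res j₂ j₁ h₂ h₁ _ m r e, hz₂]

theorem function_of_rational (hT : T.IsBorelMoore) (hF : HypersurfaceModels F) {a N : ℕ}
    (h : T.RationalFunctionFields a N) : T.FunctionFields a N := by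
  intro X hX d hd had hdN U j hj hU e he
  obtain ⟨d', hd', hmod⟩ := hF X hX
  have hdd : d' = d := by
    have := hd'.symm.trans hd
    exact_mod_cast this
  subst hdd
  obtain ⟨V, v, B, b, i, hv, hV, hb, hi, hyp⟩ := hmod U j hj hU
  -- the class on `V`
  have hα : T.Gen (T.res v hv (2 * a) a e) :=
    gen_map (fun x => hT.frob.res v hv (2 * a) a x) (inv_gen he)
  -- no generalized eigenspace on `B`
  have hB : ∀ x : T.E B (2 * a) a, T.Gen x → x = 0 := by
    intro x hx
    obtain ⟨C, c, hc⟩ := exists_compl b hb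
    have h0 : T.bd c b hc (2 * a) (2 * a - 1) a (by ring) x = 0 :=
      hT.classical.weight C a _ (gen_map (fun y => hT.frob.bd c b hc _ _ _ (by ring) y) hx)
    obtain ⟨y, hy⟩ := (hT.localization.exact_bd c b hc _ _ _ (by ring) x).1 h0
    rw [← hy, hT.classical.affine (d' + 1) (2 * a) a (by push_cast; omega) y, map_zero]
  obtain ⟨U₀, u, hu⟩ := exists_compl' i hi
  have hpush : T.push i hi (2 * a) a (T.res v hv (2 * a) a e) = 0 :=
    hB _ (gen_map (fun x => hT.frob.push i hi (2 * a) a x) hα)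
  obtain ⟨β₀, hβ₀⟩ := (hT.localization.exact_push i u hu (2 * a + 1) (2 * a) a rfl _).1 hpush
  obtain ⟨β, hβg, hβ⟩ := gen_lift (fun x => hT.frob.bd i u hu (2 * a + 1) (2 * a) a rfl x)
    (a := β₀) (by rw [hβ₀]; exact hα)
  rw [hβ₀] at hβ
  have hU₀ : Nonempty U₀.sch := by
    by_contra hne
    have hempty : u.image = ∅ := by
      rw [Set.eq_empty_iff_forall_notMem]
      rintro x ⟨y, _⟩
      exact hne ⟨y⟩
    apply hyp.2.1
    rw [hu.compl, hempty, Set.compl_empty]
  obtain ⟨U', u', hu', hne', hβ0⟩ := noGenericGen hT (h (d' + 1) (by omega) (by omega))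
    (u.comp b) (hu.opn.comp hb) hU₀ β hβg
  -- an open subset of `B` which meets `V` and meets the complement of `U'` only in `V`
  have hopen : (u'.comp u).Open := hu'.comp hu.opn
  obtain ⟨O, hO, hOV, hOW⟩ := exists_open_near (Y := B.sch) (V := i.image)
    (W := ((u'.comp u).image)ᶜ) hyp.1 hyp.2.2 hopen.isOpen.isClosed_compl (by
      intro hun
      obtain ⟨y⟩ := hne'
      have : (u'.comp u).mor y ∈ ((u'.comp u).image)ᶜ := by rw [hun]; trivial
      exact this ⟨y, rfl⟩) (by
      rw [hu.compl]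
      refine Set.compl_subset_compl.2 ?_
      rw [image_comp]
      rintro _ ⟨y, _, rfl⟩
      exact ⟨y, rfl⟩)
  let OO : B.sch.Opens := ⟨O, hO⟩
  have hcomp := restrict_complementary hu OO
  -- the class `β` vanishes on the part of `U₀` over `O`
  have hsub : (openInc U₀ (u.mor ⁻¹ᵁ OO)).image ⊆ u'.image := by
    rw [openInc_image]
    intro y hy
    by_contra hy'
    have h1 : u.mor y ∈ O := hy
    have h2 : u.mor y ∈ ((u'.comp u).image)ᶜ := by
      rintro ⟨w, hw⟩
      apply hy'
      refine ⟨w, ?_⟩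
      have hinj : Function.Injective u.mor := by
        haveI : IsOpenImmersion u.mor := hu.opn
        exact u.mor.isOpenEmbedding.injective
      apply hinj
      rw [← hw]
      exact (Scheme.Hom.comp_apply u'.mor u.mor w).symm
    have h3 := hOW ⟨h1, h2⟩
    rw [hu.compl] at h3
    exact h3 ⟨y, rfl⟩
  obtain ⟨k, hk, hkc⟩ := exists_lift (openInc U₀ (u.mor ⁻¹ᵁ OO)) u' (openInc_open _ _) hu' hsub
  have hβO : T.res (openInc U₀ (u.mor ⁻¹ᵁ OO)) (openInc_open _ _) (2 * a + 1) a β = 0 := by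
    have h1 : T.res (k.comp u') (hk.comp hu') (2 * a + 1) a β = 0 := by
      rw [hT.functorial.res k u' hk hu' _ _ _ β, hβ0, map_zero]
    have h2 : ∀ (f g : (openSub U₀ (u.mor ⁻¹ᵁ OO)).Hom U₀) (hf : f.Open) (hg : g.Open), f = g →
        T.res f hf (2 * a + 1) a β = T.res g hg (2 * a + 1) a β := by
      intro f g hf hg hfg
      subst hfg
      rfl
    rw [h2 _ _ (openInc_open _ _) (hk.comp hu') hkc.symm, h1]
  have hres := hT.localization.bd_res i u hu (restrict i OO) (restrict u OO) hcomp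
    (openInc V (i.mor ⁻¹ᵁ OO)) (openInc B OO) (openInc U₀ (u.mor ⁻¹ᵁ OO)) (openInc_open _ _)
    (openInc_open _ _) (openInc_open _ _) (restrict_comp i OO) (restrict_comp u OO)
    (2 * a + 1) (2 * a) a rfl β
  rw [hβO, map_zero, hβ] at hres
  refine ⟨openSub V (i.mor ⁻¹ᵁ OO), (openInc V (i.mor ⁻¹ᵁ OO)).comp v,
    (openInc_open _ _).comp hv, ?_, ?_⟩
  · obtain ⟨x, ⟨y, rfl⟩, hx⟩ := hOV
    exact ⟨⟨y, hx⟩⟩
  · rw [hT.functorial.res (openInc V (i.mor ⁻¹ᵁ OO)) v (openInc_open _ _) hv _ _ _ e, ← hres]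

lemma Algebraic.add {X : Var F} {a : ℕ} {x y : T.E X (2 * a) a} (hx : T.Algebraic x)
    (hy : T.Algebraic y) : T.Algebraic (x + y) := Submodule.add_mem _ hx hy

theorem all_of_function (hT : T.IsBorelMoore) (hF : HypersurfaceModels F) {a N : ℕ}
    (h : T.FunctionFields a N) : T.AllVarieties a N := by
  intro X hX
  have key : ∀ C : Closeds X.sch, ∀ (Z : Var F) (z : Z.Hom X), z.Closed → z.image = C →
      ∀ e : T.E Z (2 * a) a, T.Gen e → T.Algebraic e := by
    intro C
    have wf : WellFounded (fun A B : Closeds X.sch => A < B) := wellFounded_lt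
    refine wf.induction (C := fun C => ∀ (Z : Var F) (z : Z.Hom X), z.Closed → z.image = C →
      ∀ e : T.E Z (2 * a) a, T.Gen e → T.Algebraic e) C ?_
    clear C
    intro C ih Z z hz hzC e he
    by_cases hne : Nonempty Z.sch
    swap
    · rw [not_nonempty_iff] at hne
      refine hT.classical.top Z a ?_ e he
      have : topologicalKrullDim Z.sch = ⊥ := by
        unfold topologicalKrullDim
        haveI : IsEmpty (IrreducibleCloseds Z.sch) :=
          ⟨fun s => by obtain ⟨x, _⟩ := s.isIrreducible.nonempty; exact hne.elim x⟩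
        exact Order.krullDim_eq_bot
      rw [this]
      exact bot_le
    obtain ⟨O, hO⟩ := exists_irreducible_open Z hne
    -- a nonempty open subvariety on which `e` is algebraic
    have hex : ∃ (V : Var F) (v : V.Hom Z) (hv : v.Open), Nonempty V.sch ∧
        T.Algebraic (T.res v hv (2 * a) a e) := by
      obtain ⟨d, hd, -⟩ := hF (openSub Z O) hO
      have hne' : Nonempty (openSub Z O).sch := hO.toNonempty
      have hgen : T.Gen (T.res (openInc Z O) (openInc_open Z O) (2 * a) a e) :=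
        gen_map (fun x => hT.frob.res _ _ (2 * a) a x) he
      rcases Nat.lt_or_ge a d with had | had
      · have hdN : d ≤ N := by
          have h1 : topologicalKrullDim (openSub Z O).sch ≤ N :=
            (dim_le_of_open (openInc_open Z O)).trans ((dim_le_of_closed hz).trans hX)
          rw [hd] at h1
          exact_mod_cast h1
        obtain ⟨V, v, hv, hV, hv0⟩ := noGenericGen hT (h _ hO d hd had hdN)
          (Var.Hom.id _) (id_open _) hne' _ hgen
        refine ⟨V, v.comp (openInc Z O), hv.comp (openInc_open Z O), hV, ?_⟩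
        rw [hT.functorial.res v (openInc Z O) hv (openInc_open Z O) _ _ _ e, hv0]
        exact Submodule.zero_mem _
      · refine ⟨openSub Z O, openInc Z O, openInc_open Z O, hne', hT.classical.top _ a ?_ _ hgen⟩
        rw [hd]
        exact_mod_cast had
    obtain ⟨V, v, hv, hV, halg⟩ := hex
    obtain ⟨x, hx, hxv⟩ := halg.lift hT v hv
    obtain ⟨Z₁, i, hi⟩ := exists_compl v hv
    obtain ⟨γ₀, hγ₀⟩ := (hT.localization.exact_res i v hi (2 * a) a (e - x)).1 (by
      rw [map_sub, hxv, sub_self])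
    have hgx : T.Gen (e - x) := Submodule.sub_mem _ he (inv_gen (hx.gen hT))
    obtain ⟨γ, hγg, hγ⟩ := gen_lift (fun y => hT.frob.push i hi.closed (2 * a) a y)
      (a := γ₀) (by rw [hγ₀]; exact hgx)
    rw [hγ₀] at hγ
    have hcl : (i.comp z).Closed := hi.closed.comp hz
    have hzinj : Function.Injective z.mor := by
      haveI : IsClosedImmersion z.mor := hz
      exact z.mor.isClosedEmbedding.injective
    have hlt : (⟨(i.comp z).image, hcl.isClosed⟩ : Closeds X.sch) < C := by
      rw [← SetLike.coe_ssubset_coe, ← hzC]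
      change (i.comp z).image ⊂ z.image
      rw [image_comp]
      refine ⟨by rintro _ ⟨y, _, rfl⟩; exact ⟨y, rfl⟩, ?_⟩
      intro hsub
      obtain ⟨y⟩ := hV
      obtain ⟨w, hw, hwy⟩ := hsub ⟨v.mor y, rfl⟩
      rw [hi.compl] at hw
      apply hw
      rw [hzinj hwy]
      exact ⟨y, rfl⟩
    have hγa := ih ⟨(i.comp z).image, hcl.isClosed⟩ hlt Z₁ (i.comp z) hcl rfl γ hγg
    have := (hγa.push hT i hi.closed).add hx
    rw [hγ, sub_add_cancel] at this
    exact this
  exact key ⟨(Var.Hom.id X).image, (id_closed X).isClosed⟩ X (Var.Hom.id X) (id_closed X) rfl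

/-- Finitely many cycles on a proper closed subvariety of affine space are rationally equivalent to
zero on one larger proper closed subvariety. -/
lemma exists_kill (hT : T.IsBorelMoore) {n a : ℕ} (han : a + 2 ≤ n) (l : List Unit) :
    ∀ (W : Var F) (w : W.Hom (affineSpace F n)), w.Closed → w.image ≠ Set.univ →
      ∀ z : Fin l.length → T.CH W a, ∃ (W' : Var F) (w' : W'.Hom (affineSpace F n))
        (c : W.Hom W') (h : c.Closed), w'.Closed ∧ w'.image ≠ Set.univ ∧ c.comp w' = w ∧
          ∀ k, T.pushCH c h a (z k) = 0 := by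
  induction l with
  | nil =>
    intro W w hw hw' z
    exact ⟨W, w, Var.Hom.id W, id_closed W, hw, hw', Var.Hom.ext' (Category.id_comp _),
      fun k => k.elim0⟩
  | cons x l ih =>
    intro W w hw hw' z
    obtain ⟨W₁, w₁, c₁, h₁, hw₁, hw₁', hc₁, hz₁⟩ :=
      hT.classical.cycles n a han W w hw hw' (z 0)
    obtain ⟨W₂, w₂, c₂, h₂, hw₂, hw₂', hc₂, hz₂⟩ :=
      ih W₁ w₁ hw₁ hw₁' (fun k => T.pushCH c₁ h₁ a (z k.succ))
    refine ⟨W₂, w₂, c₁.comp c₂, h₁.comp h₂, hw₂, hw₂', ?_, ?_⟩
    · rw [← hc₁, ← hc₂]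
      exact Var.Hom.ext' (Category.assoc _ _ _)
    · intro k
      rw [hT.functorial.pushCH c₁ c₂ h₁ h₂]
      refine Fin.cases ?_ (fun k => ?_) k
      · rw [hz₁, map_zero]
      · exact hz₂ k

theorem rational_of_all (hT : T.IsBorelMoore) {a N : ℕ}
    (h : T.AllVarieties a N) : T.RationalFunctionFields a N := by
  intro n han hnN U j hj hU e he
  obtain ⟨W, w, hw⟩ := exists_compl j hj
  have hw' : w.image ≠ Set.univ := by
    rw [hw.compl]
    intro hun
    obtain ⟨y⟩ := hU
    have : j.mor y ∈ (j.image)ᶜ := by rw [hun]; trivial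
    exact this ⟨y, rfl⟩
  have hdim : topologicalKrullDim W.sch ≤ N := by
    obtain ⟨d, rfl⟩ : ∃ d, n = d + 1 := ⟨n - 1, by omega⟩
    refine (dim_affineSpace_closed d W w hw.closed hw').trans ?_
    have : d ≤ N := by omega
    exact_mod_cast this
  have hbg : T.Gen (T.bd w j hw (2 * a + 1) (2 * a) a rfl e) :=
    gen_map (fun x => hT.frob.bd w j hw _ _ _ rfl x) (inv_gen he)
  have halg := h W hdim _ hbg
  -- the cycles which occur
  have halg' : T.bd w j hw (2 * a + 1) (2 * a) a rfl e ∈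
      Submodule.span K (Set.range (T.cl W a)) := halg
  rw [Finsupp.mem_span_range_iff_exists_finsupp] at halg'
  obtain ⟨c, hc⟩ := halg'
  obtain ⟨l, z, hz⟩ : ∃ (l : List Unit) (z : Fin l.length → T.CH W a),
      ∀ y ∈ c.support, ∃ k, z k = y := by
    refine ⟨List.replicate c.support.card (), fun k =>
      (c.support.equivFin.symm (Fin.cast (by simp) k) : T.CH W a), ?_⟩
    intro y hy
    refine ⟨Fin.cast (by simp) (c.support.equivFin ⟨y, hy⟩), ?_⟩
    simp
  obtain ⟨W', w', c', hc', hw'', hw''', hcw, hkill⟩ := exists_kill hT han l W w hw.closed hw' z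
  obtain ⟨U', j', hj'⟩ := exists_compl' w' hw''
  have hpush : T.push c' hc' (2 * a) a (T.bd w j hw (2 * a + 1) (2 * a) a rfl e) = 0 := by
    rw [← hc, Finsupp.sum, map_sum]
    refine Finset.sum_eq_zero fun y hy => ?_
    obtain ⟨k, rfl⟩ := hz y hy
    rw [map_smul, hT.functorial.cl_push, hkill, map_zero, smul_zero]
  have hsub : j'.image ⊆ j.image := by
    have h1 : w.image ⊆ w'.image := by
      rw [← hcw, image_comp]
      rintro _ ⟨y, _, rfl⟩
      exact ⟨y, rfl⟩
    have h2 : (w'.image)ᶜ ⊆ (w.image)ᶜ := Set.compl_subset_compl.2 h1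
    rw [hw.compl, hj'.compl, compl_compl, compl_compl] at h2
    exact h2
  obtain ⟨u, hu, huj⟩ := exists_lift j' j hj'.opn hj hsub
  have hb := hT.localization.bd_push w j hw w' j' hj' c' u hc' hu hcw huj
    (2 * a + 1) (2 * a) a rfl e
  rw [hpush] at hb
  obtain ⟨x, hx⟩ := (hT.localization.exact_bd w' j' hj' (2 * a + 1) (2 * a) a rfl _).1 hb
  refine ⟨U', u, hu, ?_, ?_⟩
  · by_contra hne
    apply hw'''
    have hempty : j'.image = ∅ := by
      rw [Set.eq_empty_iff_forall_notMem]
      rintro x ⟨y, _⟩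
      exact hne ⟨y⟩
    rw [hj'.compl, hempty, Set.compl_empty]
  · rw [← hx, hT.classical.affine n (2 * a + 1) a (by omega) x, map_zero]

theorem smooth_of_all (hT : T.IsBorelMoore) {a N : ℕ} (S : Var F → Prop)
    (h : T.AllVarieties a N) : T.TateSemisimple S a N :=
  fun X _ hX => ⟨fun e he => h X hX e (inv_gen he), fun e he => (h X hX e he).gen hT⟩

theorem all_of_smooth (hT : T.IsBorelMoore) {a N : ℕ} (S : Var F → Prop)
    (hS : T.Dominating S a N) (h : T.TateSemisimple S a N) : T.AllVarieties a N := by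
  intro X hX e he
  obtain ⟨Y, hY, hYN, φ, hφ, hsurj⟩ := hS X hX
  obtain ⟨e', he', rfl⟩ := hsurj e he
  obtain ⟨h1, h2⟩ := h Y hY hYN
  have halg : e' ∈ Submodule.span K (Set.range (T.cl Y a)) := h1 e' (h2 e' he')
  clear he he'
  induction halg using Submodule.span_induction with
  | mem x hx => obtain ⟨z, rfl⟩ := hx; exact hφ z
  | zero => rw [map_zero]; exact Submodule.zero_mem _
  | add x y hx hy ihx ihy => rw [map_add]; exact Submodule.add_mem _ ihx ihy
  | smul c x hx ih => rw [map_smul]; exact Submodule.smul_mem _ _ ih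

theorem tfae_main (hT : T.IsBorelMoore) (hF : HypersurfaceModels F) (a N : ℕ)
    (S : Var F → Prop) (hS : T.Dominating S a N) :
    [T.RationalFunctionFields a N, T.FunctionFields a N, T.AllVarieties a N,
      T.TateSemisimple S a N].TFAE := by
  tfae_have 1 → 2 := function_of_rational hT hF
  tfae_have 2 → 3 := all_of_function hT hF
  tfae_have 3 → 1 := rational_of_all hT
  tfae_have 3 → 4 := smooth_of_all hT S
  tfae_have 4 → 3 := all_of_smooth hT S hS
  tfae_finish

end Theory

end Pool.Agent.R905.RF
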