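import Pool.Agent.R905.RF.Dim
import Pool.Agent.R905.RF.DefsBS

/-!
# Vanishing of motivic cohomology in negative degrees and rational function fields: proofs
-/

set_option autoImplicit false
set_option linter.all false

open AlgebraicGeometry CategoryTheory TopologicalSpace

namespace Pool.Agent.R905.RF

lemma length_lt {X Y : Type} [TopologicalSpace X] [TopologicalSpace Y] [IrreducibleSpace Y]
    {f : X → Y} (hf : Topology.IsClosedEmbedding f) (hne : Set.range f ≠ Set.univ) {d : ℕ}
    (hd : topologicalKrullDim Y ≤ (d : WithBot ℕ∞)) (p : LTSeries (IrreducibleCloseds X)) :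
    p.length + 1 ≤ d := by
  let q := p.map _ (TopologicalSpace.IrreducibleCloseds.map_strictMono_of_isInducing hf.isInducing)
  let t : IrreducibleCloseds Y := ⟨Set.univ, IrreducibleSpace.isIrreducible_univ Y, isClosed_univ⟩
  have hlt : q.last < t := by
    have hle : q.last ≤ t := fun x _ => trivial
    refine lt_of_le_of_ne hle ?_
    intro h
    apply hne
    have h1 : (q.last : Set Y) = Set.univ := by rw [h]; rfl
    have h2 : (q.last : Set Y) ⊆ Set.range f := by
      rw [LTSeries.last_map]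
      change closure (f '' _) ⊆ Set.range f
      exact closure_minimal (Set.image_subset_range _ _) hf.isClosed_range
    exact Set.eq_univ_of_univ_subset (h1 ▸ h2)
  have h := Order.LTSeries.length_le_krullDim (q.snoc t hlt)
  have h' : ((p.length + 1 : ℕ) : WithBot ℕ∞) ≤ (d : WithBot ℕ∞) := by
    refine le_trans ?_ (h.trans hd)
    exact le_of_eq (by congr 1)
  exact_mod_cast h'

lemma dim_or_empty {X Y : Type} [TopologicalSpace X] [TopologicalSpace Y] [IrreducibleSpace Y]
    {f : X → Y} (hf : Topology.IsClosedEmbedding f) (hne : Set.range f ≠ Set.univ) {d : ℕ}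
    (hd : topologicalKrullDim Y ≤ (d : WithBot ℕ∞)) :
    IsEmpty X ∨ ∃ d', d = d' + 1 ∧ topologicalKrullDim X ≤ (d' : WithBot ℕ∞) := by
  by_cases hX : IsEmpty X
  · exact Or.inl hX
  right
  rw [not_isEmpty_iff] at hX
  obtain ⟨x⟩ := hX
  have h1 := length_lt hf hne hd
    (RelSeries.singleton _ ⟨closure {x}, isIrreducible_singleton.closure, isClosed_closure⟩)
  obtain ⟨d', rfl⟩ : ∃ d', d = d' + 1 := ⟨d - 1, by omega⟩
  refine ⟨d', rfl, iSup_le fun p => ?_⟩
  have h2 := length_lt hf hne hd p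
  have h3 : p.length ≤ d' := by omega
  exact_mod_cast h3

variable {F : Type} [Field F]

/-- The complement of a closed subvariety, as an open subvariety. -/
lemma compl_openInc {X Z : Var F} (i : Z.Hom X) (hi : i.Closed) :
    Complementary i (openInc X ⟨(i.image)ᶜ, hi.isClosed.isOpen_compl⟩) := by
  refine ⟨hi, openInc_open _ _, ?_⟩
  rw [openInc_image]
  exact (compl_compl _).symm

namespace Motivic

variable {T : Motivic F}

/-- The vanishing in dimensions less than `d`. -/
def Below (T : Motivic F) (d : ℕ) : Prop :=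
  ∀ d' < d, ∀ X : Var F, topologicalKrullDim X.sch ≤ (d' : WithBot ℕ∞) → ∀ m r : ℤ, 2 * d' < m →
    ∀ e : T.E X m r, e = 0

/-- The vanishing at the generic points of irreducible varieties of dimension `d`. -/
def At (T : Motivic F) (d : ℕ) : Prop :=
  ∀ X : Var F, IrreducibleSpace X.sch → topologicalKrullDim X.sch = (d : WithBot ℕ∞) →
    ∀ m r : ℤ, 2 * d < m → ∀ (U : Var F) (j : U.Hom X), j.Open → Nonempty U.sch → ∀ e : T.E U m r,
      ∃ (U' : Var F) (j' : U'.Hom U) (h : j'.Open), Nonempty U'.sch ∧ T.res j' h m r e = 0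

lemma closed_zero (hT : T.IsMotivic) {d : ℕ} (ih : T.Below d) {C Y : Var F} (c : C.Hom Y)
    (hc : c.Closed) (hY : IrreducibleSpace Y.sch) (hd : topologicalKrullDim Y.sch ≤ d)
    (hne : c.image ≠ Set.univ) {m r : ℤ} (hm : 2 * (d : ℤ) ≤ m + 1) (e : T.E C m r) : e = 0 := by
  haveI : IsClosedImmersion c.mor := hc
  rcases dim_or_empty c.mor.isClosedEmbedding hne hd with h | ⟨d', hd', h⟩
  · exact hT.empty C h m r e
  · exact ih d' (by omega) C h m r (by subst hd'; push_cast at hm; omega) e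

lemma image_ne_univ {X Z U : Var F} {i : Z.Hom X} {j : U.Hom X} (h : Complementary i j)
    (hU : Nonempty U.sch) : i.image ≠ Set.univ := by
  rw [h.compl]
  intro hun
  obtain ⟨y⟩ := hU
  have : j.mor y ∈ (j.image)ᶜ := by rw [hun]; trivial
  exact this ⟨y, rfl⟩

lemma nonempty_of_ne {X Z U : Var F} {i : Z.Hom X} {j : U.Hom X} (h : Complementary i j)
    (hne : i.image ≠ Set.univ) : Nonempty U.sch := by
  by_contra hU
  apply hne
  have hempty : j.image = ∅ := by
    rw [Set.eq_empty_iff_forall_notMem]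
    rintro x ⟨y, _⟩
    exact hU ⟨y⟩
  rw [h.compl, hempty, Set.compl_empty]

lemma irreducible_of_image {H A : Var F} (i : H.Hom A) (hi : i.Closed)
    (h : IsIrreducible i.image) : IrreducibleSpace H.sch := by
  haveI : IsClosedImmersion i.mor := hi
  have hind := i.mor.isClosedEmbedding.isInducing
  have h1 : IsPreirreducible (Set.univ : Set H.sch) := by
    rintro A B hA hB ⟨x, _, hx⟩ ⟨y, _, hy⟩
    obtain ⟨A', hA', rfl⟩ := hind.isOpen_iff.1 hA
    obtain ⟨B', hB', rfl⟩ := hind.isOpen_iff.1 hB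
    obtain ⟨z, ⟨w, rfl⟩, hz1, hz2⟩ := h.2 A' B' hA' hB' ⟨_, ⟨x, rfl⟩, hx⟩ ⟨_, ⟨y, rfl⟩, hy⟩
    exact ⟨w, trivial, hz1, hz2⟩
  obtain ⟨_, ⟨w, rfl⟩⟩ := h.1
  rw [irreducibleSpace_def]
  exact ⟨⟨w, trivial⟩, h1⟩

theorem at_of_rational (hT : T.IsMotivic) (hF : BirationalModels F) {N d : ℕ} (hdN : d ≤ N)
    (h : T.RationalFields N) (ih : T.Below d) : T.At d := by
  intro X hX hXd m r hm U j hj hU e
  obtain ⟨d₀, hd₀, hmod⟩ := hF X hX
  have hdd : d₀ = d := by
    have := hd₀.symm.trans hXd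
    exact_mod_cast this
  subst hdd
  obtain ⟨V, v, H, hh, i, hv, hV, hho, hi, hyp⟩ := hmod U j hj hU
  have hHirr : IrreducibleSpace H.sch := irreducible_of_image i hi hyp.1
  have hHdim : topologicalKrullDim H.sch ≤ d₀ := dim_affineSpace_closed d₀ H i hi hyp.2.1
  have hiinj : Function.Injective i.mor := by
    haveI : IsClosedImmersion i.mor := hi
    exact i.mor.isClosedEmbedding.injective
  -- the complement of `V` in `H`, and its complement in affine space
  obtain ⟨C, c, hc⟩ := exists_compl hh hho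
  have hci : (c.comp i).Closed := hc.closed.comp hi
  let OB : (affineSpace F (d₀ + 1)).sch.Opens := ⟨((c.comp i).image)ᶜ, hci.isClosed.isOpen_compl⟩
  have hB : Complementary (c.comp i) (openInc (affineSpace F (d₀ + 1)) OB) := compl_openInc _ hci
  have hmemOB : ∀ x : H.sch, i.mor x ∈ OB ↔ x ∈ hh.image := by
    intro x
    have h1 : i.mor x ∈ OB ↔ i.mor x ∉ (c.comp i).image := Iff.rfl
    rw [h1, image_comp, hc.compl]
    constructor
    · intro h2
      by_contra h3
      exact h2 ⟨x, h3, rfl⟩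
    · rintro h2 ⟨y, hy, hyx⟩
      rw [hiinj hyx] at hy
      exact hy h2
  let V' := openSub H (i.mor ⁻¹ᵁ OB)
  have hV'img : (openInc H (i.mor ⁻¹ᵁ OB)).image ⊆ hh.image := by
    rw [openInc_image]
    intro x hx
    exact (hmemOB x).1 hx
  obtain ⟨k, hk, hkc⟩ := exists_lift (openInc H (i.mor ⁻¹ᵁ OB)) hh (openInc_open _ _) hho hV'img
  let iB : V'.Hom (openSub (affineSpace F (d₀ + 1)) OB) := restrict i OB
  have hiB : iB.Closed := restrict_closed i hi OB
  let b : (openSub (affineSpace F (d₀ + 1)) OB).Hom (affineSpace F (d₀ + 1)) :=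
    openInc (affineSpace F (d₀ + 1)) OB
  have hb : b.Open := openInc_open _ _
  obtain ⟨U₀, u, hu⟩ := exists_compl' iB hiB
  -- a nonempty part of `V'`
  have hVH : (i.image ∩ (OB : Set (affineSpace F (d₀ + 1)).sch)).Nonempty := by
    obtain ⟨y⟩ := hV
    exact ⟨i.mor (hh.mor y), ⟨_, rfl⟩, (hmemOB _).2 ⟨y, rfl⟩⟩
  have hiBne : iB.image ≠ Set.univ := by
    intro hun
    -- then `OB ⊆ H`, so `A ∖ C = V`, and `H ∪ C = A`, contradiction with `H ≠ A`
    apply hyp.2.1
    rw [Set.eq_univ_iff_forall]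
    intro x
    by_cases hx : x ∈ OB
    · have hx' : x ∈ Set.range OB.ι := by rw [Scheme.Opens.range_ι]; exact hx
      obtain ⟨y, rfl⟩ := hx'
      have hy : y ∈ iB.image := by rw [hun]; trivial
      exact (mem_restrict_image i OB y).1 hy
    · have hx' : x ∈ (c.comp i).image := by
        by_contra h3
        exact hx h3
      rw [image_comp] at hx'
      obtain ⟨y, _, rfl⟩ := hx'
      exact ⟨y, rfl⟩
  have hU₀ : Nonempty U₀.sch := nonempty_of_ne hu hiBne
  -- lift the class
  set α := T.res k hk m r (T.res v hv m r e) with hα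
  have hCzero : ∀ x : T.E C (m - 1) r, x = 0 := fun x =>
    closed_zero hT ih c hc.closed hHirr hHdim (image_ne_univ hc hV) (by omega) x
  obtain ⟨x, hx⟩ := (hT.exact_bd (c.comp i) b hB m (m - 1) r (by ring) (T.push iB hiB m r α)).1
    (hCzero _)
  have hx0 : T.res (u.comp b) (hu.opn.comp hb) m r x = 0 := by
    rw [hT.res_comp u b hu.opn hb _ m r x, hx]
    exact (hT.exact_res iB u hu m r _).2 ⟨α, rfl⟩
  have hxz : x = 0 := hT.inj (d₀ + 1) U₀ (u.comp b) _ hU₀ m r x hx0
  rw [hxz, map_zero] at hx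
  obtain ⟨β, hβ⟩ := (hT.exact_push iB u hu (m + 1) m r rfl α).1 hx.symm
  obtain ⟨y, U', u', hu', hU', hyβ⟩ := h (d₀ + 1) (by omega) (m + 1) r (by push_cast; omega) U₀
    (u.comp b) (hu.opn.comp hb) hU₀ β
  rw [hT.res_comp u b hu.opn hb _ (m + 1) r y] at hyβ
  -- the corrected class
  have hβ' : T.bd iB u hu (m + 1) m r rfl (β - T.res u hu.opn (m + 1) r (T.res b hb (m + 1) r y)) =
      α := by
    rw [map_sub, hβ, (hT.exact_bd iB u hu (m + 1) m r rfl _).2 ⟨_, rfl⟩, sub_zero]
  have hβ0 : T.res u' hu' (m + 1) r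
      (β - T.res u hu.opn (m + 1) r (T.res b hb (m + 1) r y)) = 0 := by
    rw [map_sub, hyβ, sub_self]
  generalize hβ₁ : β - T.res u hu.opn (m + 1) r (T.res b hb (m + 1) r y) = β₁ at hβ' hβ0
  -- an open subset of affine space which meets `H` and meets the complement of `U'` only in `H`
  have hopen : ((u'.comp u).comp b).Open := (hu'.comp hu.opn).comp hb
  have hinjb : Function.Injective b.mor := by
    haveI : IsOpenImmersion b.mor := hb
    exact b.mor.isOpenEmbedding.injective
  have hinju : Function.Injective u.mor := by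
    haveI : IsOpenImmersion u.mor := hu.opn
    exact u.mor.isOpenEmbedding.injective
  obtain ⟨O, hO, hOV, hOW⟩ := exists_open_near (Y := (affineSpace F (d₀ + 1)).sch) (V := i.image)
    (W := (((u'.comp u).comp b).image)ᶜ) hyp.1 hyp.2.2 hopen.isOpen.isClosed_compl (by
      intro hun
      obtain ⟨y⟩ := hU'
      have : ((u'.comp u).comp b).mor y ∈ (((u'.comp u).comp b).image)ᶜ := by rw [hun]; trivial
      exact this ⟨y, rfl⟩) (by
      rintro z hz hz'
      rw [image_comp, image_comp] at hz'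
      obtain ⟨w, ⟨w', _, rfl⟩, rfl⟩ := hz'
      have h1 : u.mor w' ∈ iB.image := (mem_restrict_image i OB _).2 hz
      rw [hu.compl] at h1
      exact h1 ⟨w', rfl⟩)
  let OO : (openSub (affineSpace F (d₀ + 1)) OB).sch.Opens := b.mor ⁻¹ᵁ ⟨O, hO⟩
  have hcomp := restrict_complementary hu OO
  have hsub : (openInc U₀ (u.mor ⁻¹ᵁ OO)).image ⊆ u'.image := by
    rw [openInc_image]
    intro y hy
    by_contra hy'
    have h1 : b.mor (u.mor y) ∈ O := hy
    have h2 : b.mor (u.mor y) ∈ (((u'.comp u).comp b).image)ᶜ := by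
      rw [image_comp, image_comp]
      rintro ⟨w, ⟨w', ⟨w'', rfl⟩, rfl⟩, hw⟩
      have h4 := hinju (hinjb hw)
      exact hy' (h4 ▸ ⟨w'', rfl⟩)
    have h3 := hOW ⟨h1, h2⟩
    have h4 : u.mor y ∈ iB.image := (mem_restrict_image i OB _).2 h3
    rw [hu.compl] at h4
    exact h4 ⟨y, rfl⟩
  obtain ⟨κ, hκ, hκc⟩ := exists_lift (openInc U₀ (u.mor ⁻¹ᵁ OO)) u' (openInc_open _ _) hu' hsub
  have hβO : T.res (openInc U₀ (u.mor ⁻¹ᵁ OO)) (openInc_open _ _) (m + 1) r β₁ = 0 := by
    have h1 : T.res (κ.comp u') (hκ.comp hu') (m + 1) r β₁ = 0 := by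
      rw [hT.res_comp κ u' hκ hu' _ _ _ β₁, hβ0, map_zero]
    have h2 : ∀ (f g : (openSub U₀ (u.mor ⁻¹ᵁ OO)).Hom U₀) (hf : f.Open) (hg : g.Open), f = g →
        T.res f hf (m + 1) r β₁ = T.res g hg (m + 1) r β₁ := by
      intro f g hf hg hfg
      subst hfg
      rfl
    rw [h2 _ _ (openInc_open _ _) (hκ.comp hu') hκc.symm, h1]
  have hres := hT.bd_res iB u hu (restrict iB OO) (restrict u OO) hcomp
    (openInc V' (iB.mor ⁻¹ᵁ OO)) (openInc _ OO) (openInc U₀ (u.mor ⁻¹ᵁ OO)) (openInc_open _ _)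
    (openInc_open _ _) (openInc_open _ _) (restrict_comp iB OO) (restrict_comp u OO)
    (m + 1) m r rfl β₁
  rw [hβO, map_zero, hβ'] at hres
  refine ⟨openSub V' (iB.mor ⁻¹ᵁ OO), ((openInc V' (iB.mor ⁻¹ᵁ OO)).comp k).comp v,
    ((openInc_open _ _).comp hk).comp hv, ?_, ?_⟩
  · -- `H` is irreducible
    obtain ⟨x, ⟨z, rfl⟩, hx1, hx2⟩ := hyp.1.2 O OB hO OB.2 hOV hVH
    have hz : z ∈ i.mor ⁻¹ᵁ OB := hx2
    refine ⟨⟨⟨z, hz⟩, ?_⟩⟩
    change b.mor (iB.mor ⟨z, hz⟩) ∈ O
    have h5 : b.mor (iB.mor ⟨z, hz⟩) = i.mor z := by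
      have h6 := congrArg (fun f => Var.Hom.mor f) (restrict_comp i OB)
      have h7 : iB.mor ≫ b.mor = (i.mor ⁻¹ᵁ OB).ι ≫ i.mor := h6
      have h8 := congrArg (fun f : (openSub H (i.mor ⁻¹ᵁ OB)).sch ⟶
        (affineSpace F (d₀ + 1)).sch => f ⟨z, hz⟩) h7
      exact h8
    rw [h5]
    exact hx1
  · rw [hT.res_comp ((openInc V' (iB.mor ⁻¹ᵁ OO)).comp k) v ((openInc_open _ _).comp hk) hv _ _ _ e,
      hT.res_comp (openInc V' (iB.mor ⁻¹ᵁ OO)) k (openInc_open _ _) hk _ _ _ _, ← hα, ← hres]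

theorem vanishing_of_at (hT : T.IsMotivic) (hF : BirationalModels F) {d : ℕ}
    (ih : T.Below d) (h : T.At d) : T.Below (d + 1) := by
  intro d₁ hd₁ X hX m r hm
  rcases Nat.lt_or_ge d₁ d with hlt | hge
  · exact ih d₁ hlt X hX m r hm
  obtain rfl : d₁ = d := by omega
  have key : ∀ C : Closeds X.sch, ∀ (Z : Var F) (z : Z.Hom X), z.Closed → z.image = C →
      ∀ e : T.E Z m r, e = 0 := by
    intro C
    have wf : WellFounded (fun A B : Closeds X.sch => A < B) := wellFounded_lt
    refine wf.induction (C := fun C => ∀ (Z : Var F) (z : Z.Hom X), z.Closed → z.image = C →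
      ∀ e : T.E Z m r, e = 0) C ?_
    clear C
    intro C ih' Z z hz hzC e
    by_cases hne : Nonempty Z.sch
    swap
    · exact hT.empty Z (not_nonempty_iff.1 hne) m r e
    obtain ⟨O, hO⟩ := exists_irreducible_open Z hne
    have hne' : Nonempty (openSub Z O).sch := hO.toNonempty
    have hex : ∃ (V : Var F) (v : V.Hom Z) (hv : v.Open), Nonempty V.sch ∧
        T.res v hv m r e = 0 := by
      obtain ⟨d', hd', -⟩ := hF (openSub Z O) hO
      have hle : d' ≤ d₁ := by
        have h1 : topologicalKrullDim (openSub Z O).sch ≤ d₁ :=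
          (dim_le_of_open (openInc_open Z O)).trans ((dim_le_of_closed hz).trans hX)
        rw [hd'] at h1
        exact_mod_cast h1
      rcases hle.lt_or_eq with hlt | heq
      · exact ⟨openSub Z O, openInc Z O, openInc_open Z O, hne',
          ih d' hlt _ (le_of_eq hd') m r (by omega) _⟩
      · subst heq
        obtain ⟨V, v, hv, hV, hv0⟩ := h _ hO hd' m r hm _ (Var.Hom.id _) (id_open _) hne'
          (T.res (openInc Z O) (openInc_open Z O) m r e)
        refine ⟨V, v.comp (openInc Z O), hv.comp (openInc_open Z O), hV, ?_⟩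
        rw [hT.res_comp v (openInc Z O) hv (openInc_open Z O) _ _ _ e, hv0]
    obtain ⟨V, v, hv, hV, hzero⟩ := hex
    obtain ⟨Z₁, i, hi⟩ := exists_compl v hv
    obtain ⟨γ, rfl⟩ := (hT.exact_res i v hi m r e).1 hzero
    have hcl : (i.comp z).Closed := hi.closed.comp hz
    have hzinj : Function.Injective z.mor := by
      haveI : IsClosedImmersion z.mor := hz
      exact z.mor.isClosedEmbedding.injective
    have hlt : (⟨(i.comp z).image, hcl.isClosed⟩ : Closeds X.sch) < C := by
      rw [← SetLike.coe_ssubset_coe, ← hzC]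
      change (i.comp z).image ⊂ z.image
      rw [image_comp]
      refine ⟨by rintro _ ⟨y, _, rfl⟩; exact ⟨y, rfl⟩, ?_⟩
      intro hsub
      obtain ⟨y⟩ := hV
      obtain ⟨w, hw, hwy⟩ := hsub ⟨v.mor y, rfl⟩
      rw [hi.compl] at hw
      apply hw
      rw [hzinj hwy]
      exact ⟨y, rfl⟩
    rw [ih' ⟨(i.comp z).image, hcl.isClosed⟩ hlt Z₁ (i.comp z) hcl rfl γ, map_zero]
  exact key ⟨(Var.Hom.id X).image, (id_closed X).isClosed⟩ X (Var.Hom.id X) (id_closed X) rfl

lemma below_of_at (hT : T.IsMotivic) (hF : BirationalModels F) {N : ℕ}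
    (h : ∀ d ≤ N, T.Below d → T.At d) (d : ℕ) (hd : d ≤ N + 1) : T.Below d := by
  induction d with
  | zero => intro d' hd'; omega
  | succ d ih =>
    have h1 := ih (by omega)
    exact vanishing_of_at hT hF h1 (h d (by omega) h1)

lemma vanishing_of_below {N : ℕ} (h : T.Below (N + 1)) : T.Vanishing (fun _ => True) N :=
  fun X _ d hX hd m r hm e => h d (by omega) X hX m r hm e

lemma below_of_vanishing {N : ℕ} (h : T.Vanishing (fun _ => True) N) : T.Below (N + 1) :=
  fun d hd X hX m r hm e => h X trivial d hX (by omega) m r hm e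

theorem all_of_rational (hT : T.IsMotivic) (hF : BirationalModels F) {N : ℕ}
    (h : T.RationalFields N) : T.Vanishing (fun _ => True) N :=
  vanishing_of_below (below_of_at hT hF (fun d hd ih => at_of_rational hT hF hd h ih) (N + 1)
    le_rfl)

theorem fields_of_all {N : ℕ} (h : T.Vanishing (fun _ => True) N) : T.AllFields N := by
  intro X hX d hd hdN m r hm U j hj hU e
  refine ⟨U, Var.Hom.id U, id_open U, hU, ?_⟩
  rw [h U trivial d ((dim_le_of_open hj).trans (le_of_eq hd)) hdN m r hm e, map_zero]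

theorem all_of_fields (hT : T.IsMotivic) (hF : BirationalModels F) {N : ℕ}
    (h : T.AllFields N) : T.Vanishing (fun _ => True) N :=
  vanishing_of_below (below_of_at hT hF (fun d hd _ X hX hXd m r hm U j hj hU e =>
    h X hX d hXd hd m r hm U j hj hU e) (N + 1) le_rfl)

theorem rational_of_all (hT : T.IsMotivic) {N : ℕ}
    (h : T.Vanishing (fun _ => True) N) : T.RationalFields N := by
  intro n hn m r hm U j hj hU e
  obtain ⟨W, w, hw⟩ := exists_compl j hj
  have hw' : w.image ≠ Set.univ := image_ne_univ hw hU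
  have hzero : ∀ z : T.E W (m - 1) r, z = 0 := by
    haveI : IsClosedImmersion w.mor := hw.closed
    haveI : IrreducibleSpace (PrimeSpectrum (MvPolynomial (Fin n) F)) :=
      PrimeSpectrum.irreducibleSpace
    haveI hirr : IrreducibleSpace (affineSpace F n).sch :=
      inferInstanceAs (IrreducibleSpace (PrimeSpectrum (MvPolynomial (Fin n) F)))
    have hdim : topologicalKrullDim (affineSpace F n).sch ≤ (n : WithBot ℕ∞) := by
      change topologicalKrullDim (PrimeSpectrum (MvPolynomial (Fin n) F)) ≤ _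
      rw [PrimeSpectrum.topologicalKrullDim_eq_ringKrullDim,
        MvPolynomial.ringKrullDim_of_isNoetherianRing, ringKrullDim_eq_zero_of_field, zero_add,
        Nat.card_eq_fintype_card, Fintype.card_fin]
    exact fun z => closed_zero hT (d := n)
      (fun d' hd' X hX m r hm e => h X trivial d' hX (by omega) m r hm e) w hw.closed hirr hdim hw'
      (m := m - 1) (by omega) z
  obtain ⟨x, hx⟩ := (hT.exact_bd w j hw m (m - 1) r (by ring) e).1 (hzero _)
  refine ⟨x, U, Var.Hom.id U, id_open U, hU, ?_⟩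
  rw [hx]

theorem smooth_of_all (S : Var F → Prop) {N : ℕ} (h : T.Vanishing (fun _ => True) N) :
    T.Vanishing S N := fun X _ => h X trivial

theorem all_of_smooth (hT : T.IsMotivic) (hF : BirationalModels F) (S : Var F → Prop) {N : ℕ}
    (hS : T.Alterations S N) (h : T.Vanishing S N) : T.Vanishing (fun _ => True) N := by
  refine vanishing_of_below (below_of_at hT hF (fun d hd ih => ?_) (N + 1) le_rfl)
  intro X hX hXd m r hm U j hj hU e
  obtain ⟨U', j', V, Y, v, hj', hU', hv, hV, hYS, hY, hYd, hφ⟩ := hS X hX d hXd hd U j hj hU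
  obtain ⟨φ, hφ⟩ := hφ m r
  refine ⟨U', j', hj', hU', hφ ?_⟩
  obtain ⟨D, i, hi⟩ := exists_compl v hv
  have hD : ∀ z : T.E D (m - 1) r, z = 0 := fun z =>
    closed_zero hT ih i hi.closed hY hYd (image_ne_univ hi hV) (by omega) z
  obtain ⟨y, hy⟩ := (hT.exact_bd i v hi m (m - 1) r (by ring) (φ (T.res j' hj' m r e))).1 (hD _)
  rw [← hy, h Y hYS d hYd hd m r hm y, map_zero, map_zero]

theorem tfae_main (hT : T.IsMotivic) (hF : BirationalModels F) (N : ℕ) (S : Var F → Prop)
    (hS : T.Alterations S N) :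
    [T.RationalFields N, T.AllFields N, T.Vanishing (fun _ => True) N, T.Vanishing S N].TFAE := by
  tfae_have 1 → 3 := all_of_rational hT hF
  tfae_have 3 → 2 := fields_of_all
  tfae_have 2 → 3 := all_of_fields hT hF
  tfae_have 3 → 1 := rational_of_all hT
  tfae_have 3 → 4 := smooth_of_all S
  tfae_have 4 → 3 := all_of_smooth hT hF S hS
  tfae_finish

end Motivic

end Pool.Agent.R905.RF
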