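import Pool.Agent.R905.RF.Dim
import Pool.Agent.R905.RF.DefsGT

/-!
# Eigenvalues of the Frobenius and supports: proofs
-/

set_option autoImplicit false
set_option linter.all false

open AlgebraicGeometry CategoryTheory TopologicalSpace

namespace Pool.Agent.R905.RF

section linear

variable {K : Type} [Field K] {A B : Type} [AddCommGroup A] [Module K A] [Module.Finite K A]
  [AddCommGroup B] [Module K B] [Module.Finite K B]

lemma mem_genα {α : K} {φ : A →ₗ[K] A} {e : A} :
    e ∈ Module.End.maxGenEigenspace φ α ↔ ∃ k : ℕ, ((φ - α • 1) ^ k : Module.End K A) e = 0 := by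
  rw [Module.End.mem_maxGenEigenspace]

lemma comm_powα {α : K} {φ : A →ₗ[K] A} {ψ : B →ₗ[K] B} {f : A →ₗ[K] B}
    (h : ∀ a, f (φ a) = ψ (f a)) (k : ℕ) (a : A) :
    f (((φ - α • 1) ^ k : Module.End K A) a) = ((ψ - α • 1) ^ k : Module.End K B) (f a) := by
  induction k generalizing a with
  | zero => simp
  | succ k ih =>
    rw [pow_succ, pow_succ]
    change f (((φ - α • 1) ^ k : Module.End K A) ((φ - α • 1 : Module.End K A) a)) =
      ((ψ - α • 1) ^ k : Module.End K B) ((ψ - α • 1 : Module.End K B) (f a))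
    rw [ih]
    congr 1
    change f (φ a - α • a) = ψ (f a) - α • f a
    rw [map_sub, h, map_smul]

lemma gen_mapα {α : K} {φ : A →ₗ[K] A} {ψ : B →ₗ[K] B} {f : A →ₗ[K] B}
    (h : ∀ a, f (φ a) = ψ (f a)) {a : A} (ha : a ∈ Module.End.maxGenEigenspace φ α) :
    f a ∈ Module.End.maxGenEigenspace ψ α := by
  rw [mem_genα] at ha ⊢
  obtain ⟨k, hk⟩ := ha
  exact ⟨k, by rw [← comm_powα h, hk, map_zero]⟩

lemma gen_eq_iSupα (α : K) (φ : A →ₗ[K] A) :
    Module.End.maxGenEigenspace φ α = ⨆ n, LinearMap.ker ((φ - α • 1) ^ n) := by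
  ext e
  rw [mem_genα]
  have hd : Directed (· ≤ ·) fun n => LinearMap.ker ((φ - α • 1 : Module.End K A) ^ n) := by
    refine Monotone.directed_le ?_
    intro m n hmn x hx
    obtain ⟨d, rfl⟩ := Nat.exists_eq_add_of_le hmn
    rw [LinearMap.mem_ker] at hx ⊢
    rw [add_comm, pow_add]
    change ((φ - α • 1 : Module.End K A) ^ d) (((φ - α • 1 : Module.End K A) ^ m) x) = 0
    rw [hx, map_zero]
  rw [Submodule.mem_iSup_of_directed _ hd]
  rfl

lemma gen_liftα {α : K} {φ : A →ₗ[K] A} {ψ : B →ₗ[K] B} {f : A →ₗ[K] B}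
    (h : ∀ a, f (φ a) = ψ (f a)) {a : A} (ha : f a ∈ Module.End.maxGenEigenspace ψ α) :
    ∃ a' ∈ Module.End.maxGenEigenspace φ α, f a' = f a := by
  have hA := LinearMap.isCompl_iSup_ker_pow_iInf_range_pow (φ - α • 1 : Module.End K A)
  have hB := LinearMap.isCompl_iSup_ker_pow_iInf_range_pow (ψ - α • 1 : Module.End K B)
  have hmem : a ∈ (⨆ n, LinearMap.ker ((φ - α • 1 : Module.End K A) ^ n)) ⊔
      ⨅ n, LinearMap.range ((φ - α • 1 : Module.End K A) ^ n) := by
    rw [hA.sup_eq_top]; trivial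
  obtain ⟨a₁, h₁, a₂, h₂, rfl⟩ := Submodule.mem_sup.1 hmem
  rw [← gen_eq_iSupα] at h₁
  refine ⟨a₁, h₁, ?_⟩
  have hc1 : f a₂ ∈ ⨆ n, LinearMap.ker ((ψ - α • 1 : Module.End K B) ^ n) := by
    rw [← gen_eq_iSupα]
    have := Submodule.sub_mem _ ha (gen_mapα h h₁)
    rwa [map_add, add_sub_cancel_left] at this
  have hc2 : f a₂ ∈ ⨅ n, LinearMap.range ((ψ - α • 1 : Module.End K B) ^ n) := by
    rw [Submodule.mem_iInf] at h₂ ⊢
    intro n
    obtain ⟨x, hx⟩ := h₂ n
    exact ⟨f x, by rw [← comm_powα h, hx]⟩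
  have h0 : f a₂ = 0 := by
    have := Submodule.mem_inf.2 ⟨hc1, hc2⟩
    rw [hB.inf_eq_bot] at this
    exact (Submodule.mem_bot K).1 this
  rw [map_add, h0, add_zero]

end linear

namespace BorelMoore

variable {F : Type} [Field F] {K : Type} [Field K] {T : BorelMoore F K}

lemma Supported.push (hT : T.IsHomology) {Z X : Var F} (i : Z.Hom X) (hi : i.Closed) {c : ℕ}
    {m r : ℤ} {e : T.E Z m r} (h : T.Supported c e) : T.Supported c (T.push i hi m r e) := by
  have h' : e ∈ Submodule.span K {x : T.E Z m r | T.IsPush c x} := h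
  clear h
  induction h' using Submodule.span_induction with
  | mem x hx =>
    obtain ⟨W, w, hw, hd, z, rfl⟩ := hx
    exact Submodule.subset_span ⟨W, w.comp i, hw.comp hi, hd, z, hT.push_comp w i hw hi _ m r z⟩
  | zero => rw [map_zero]; exact Submodule.zero_mem _
  | add x y hx hy ihx ihy => rw [map_add]; exact Submodule.add_mem _ ihx ihy
  | smul a x hx ih => rw [map_smul]; exact Submodule.smul_mem _ _ ih

lemma nonempty_of_ne' {X Z U : Var F} {i : Z.Hom X} {j : U.Hom X} (h : Complementary i j)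
    (hne : i.image ≠ Set.univ) : Nonempty U.sch := by
  by_contra hU
  apply hne
  have hempty : j.image = ∅ := by
    rw [Set.eq_empty_iff_forall_notMem]
    rintro x ⟨y, _⟩
    exact hU ⟨y⟩
  rw [h.compl, hempty, Set.compl_empty]

theorem function_of_rational (hT : T.IsHomology) (hF : HypersurfaceModels F) {α : K} {m r : ℤ}
    (hα : T.LowestWeight α m r) {c N : ℕ} (h : T.RationalFunctionFields α m r c N) :
    T.FunctionFields α m r c N := by
  intro X hX d hd had hdN U j hj hU e he
  by_cases hmd : 2 * (d : ℤ) < m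
  · refine ⟨U, Var.Hom.id U, id_open U, hU, ?_⟩
    rw [hT.high U d ((dim_le_of_open hj).trans (le_of_eq hd)) m r hmd e, map_zero]
  obtain ⟨d', hd', hmod⟩ := hF X hX
  have hdd : d' = d := by
    have := hd'.symm.trans hd
    exact_mod_cast this
  subst hdd
  obtain ⟨V, v, B, b, i, hv, hV, hb, hi, hyp⟩ := hmod U j hj hU
  have hαg : T.Gen α (T.res v hv m r e) := gen_mapα (fun x => hT.frob_res v hv m r x) he
  have hB : ∀ x : T.E B m r, T.Gen α x → x = 0 := by
    intro x hx
    obtain ⟨C, c', hc⟩ := exists_compl b hb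
    have h0 : T.bd c' b hc m (m - 1) r (by ring) x = 0 :=
      hα.1 C _ (gen_mapα (fun y => hT.frob_bd c' b hc _ _ _ (by ring) y) hx)
    obtain ⟨y, hy⟩ := (hT.exact_bd c' b hc _ _ _ (by ring) x).1 h0
    rw [← hy, hT.affine (d' + 1) m r (by push_cast; omega) y, map_zero]
  obtain ⟨U₀, u, hu⟩ := exists_compl' i hi
  have hpush : T.push i hi m r (T.res v hv m r e) = 0 :=
    hB _ (gen_mapα (fun x => hT.frob_push i hi m r x) hαg)
  obtain ⟨β₀, hβ₀⟩ := (hT.exact_push i u hu (m + 1) m r rfl _).1 hpush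
  obtain ⟨β, hβg, hβ⟩ := gen_liftα (fun x => hT.frob_bd i u hu (m + 1) m r rfl x)
    (a := β₀) (by rw [hβ₀]; exact hαg)
  rw [hβ₀] at hβ
  have hU₀ : Nonempty U₀.sch := nonempty_of_ne' hu hyp.2.1
  obtain ⟨U', u', hu', hne', hβ0⟩ := h (d' + 1) (by omega) (by omega)
    U₀ (u.comp b) (hu.opn.comp hb) hU₀ β hβg
  have hopen : (u'.comp u).Open := hu'.comp hu.opn
  obtain ⟨O, hO, hOV, hOW⟩ := exists_open_near (Y := B.sch) (V := i.image)
    (W := ((u'.comp u).image)ᶜ) hyp.1 hyp.2.2 hopen.isOpen.isClosed_compl (by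
      intro hun
      obtain ⟨y⟩ := hne'
      have : (u'.comp u).mor y ∈ ((u'.comp u).image)ᶜ := by rw [hun]; trivial
      exact this ⟨y, rfl⟩) (by
      rw [hu.compl]
      refine Set.compl_subset_compl.2 ?_
      rw [image_comp]
      rintro _ ⟨y, _, rfl⟩
      exact ⟨y, rfl⟩)
  let OO : B.sch.Opens := ⟨O, hO⟩
  have hcomp := restrict_complementary hu OO
  have hsub : (openInc U₀ (u.mor ⁻¹ᵁ OO)).image ⊆ u'.image := by
    rw [openInc_image]
    intro y hy
    by_contra hy'
    have h1 : u.mor y ∈ O := hy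
    have h2 : u.mor y ∈ ((u'.comp u).image)ᶜ := by
      rintro ⟨w, hw⟩
      apply hy'
      refine ⟨w, ?_⟩
      have hinj : Function.Injective u.mor := by
        haveI : IsOpenImmersion u.mor := hu.opn
        exact u.mor.isOpenEmbedding.injective
      apply hinj
      rw [← hw]
      exact (Scheme.Hom.comp_apply u'.mor u.mor w).symm
    have h3 := hOW ⟨h1, h2⟩
    rw [hu.compl] at h3
    exact h3 ⟨y, rfl⟩
  obtain ⟨k, hk, hkc⟩ := exists_lift (openInc U₀ (u.mor ⁻¹ᵁ OO)) u' (openInc_open _ _) hu' hsub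
  have hβO : T.res (openInc U₀ (u.mor ⁻¹ᵁ OO)) (openInc_open _ _) (m + 1) r β = 0 := by
    have h1 : T.res (k.comp u') (hk.comp hu') (m + 1) r β = 0 := by
      rw [hT.res_comp k u' hk hu' _ _ _ β, hβ0, map_zero]
    have h2 : ∀ (f g : (openSub U₀ (u.mor ⁻¹ᵁ OO)).Hom U₀) (hf : f.Open) (hg : g.Open), f = g →
        T.res f hf (m + 1) r β = T.res g hg (m + 1) r β := by
      intro f g hf hg hfg
      subst hfg
      rfl
    rw [h2 _ _ (openInc_open _ _) (hk.comp hu') hkc.symm, h1]
  have hres := hT.bd_res i u hu (restrict i OO) (restrict u OO) hcomp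
    (openInc V (i.mor ⁻¹ᵁ OO)) (openInc B OO) (openInc U₀ (u.mor ⁻¹ᵁ OO)) (openInc_open _ _)
    (openInc_open _ _) (openInc_open _ _) (restrict_comp i OO) (restrict_comp u OO)
    (m + 1) m r rfl β
  rw [hβO, map_zero, hβ] at hres
  refine ⟨openSub V (i.mor ⁻¹ᵁ OO), (openInc V (i.mor ⁻¹ᵁ OO)).comp v,
    (openInc_open _ _).comp hv, ?_, ?_⟩
  · obtain ⟨x, ⟨y, rfl⟩, hx⟩ := hOV
    exact ⟨⟨y, hx⟩⟩
  · rw [hT.res_comp (openInc V (i.mor ⁻¹ᵁ OO)) v (openInc_open _ _) hv _ _ _ e, ← hres]

theorem all_of_function (hT : T.IsHomology) (hF : HypersurfaceModels F) {α : K} {m r : ℤ}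
    (hα : T.LowestWeight α m r) {c N : ℕ} (h : T.FunctionFields α m r c N) :
    T.SupportedIn (fun _ => True) α m r c N := by
  intro X _ hX
  have key : ∀ C : Closeds X.sch, ∀ (Z : Var F) (z : Z.Hom X), z.Closed → z.image = C →
      ∀ e : T.E Z m r, T.Gen α e → T.Supported c e := by
    intro C
    have wf : WellFounded (fun A B : Closeds X.sch => A < B) := wellFounded_lt
    refine wf.induction (C := fun C => ∀ (Z : Var F) (z : Z.Hom X), z.Closed → z.image = C →
      ∀ e : T.E Z m r, T.Gen α e → T.Supported c e) C ?_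
    clear C
    intro C ih Z z hz hzC e he
    by_cases hne : Nonempty Z.sch
    swap
    · have hZ : IsEmpty Z.sch := not_nonempty_iff.1 hne
      refine Submodule.subset_span ⟨Z, Var.Hom.id Z, id_closed Z, ?_, 0, ?_⟩
      · have : topologicalKrullDim Z.sch = ⊥ := by
          unfold topologicalKrullDim
          haveI : IsEmpty (IrreducibleCloseds Z.sch) :=
            ⟨fun s => by obtain ⟨x, _⟩ := s.isIrreducible.nonempty; exact hZ.elim x⟩
          exact Order.krullDim_eq_bot
        rw [this]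
        exact bot_le
      · rw [map_zero, hT.empty Z hZ m r e]
    -- an irreducible component of `Z`
    obtain ⟨x₀⟩ := hne
    obtain ⟨o, ho, hone, hosub⟩ :=
      NoetherianSpace.exists_isOpen_nonempty_subset_irreducibleComponent
        (irreducibleComponent x₀) (irreducibleComponent_mem_irreducibleComponents x₀)
    let O : Z.sch.Opens := ⟨o, ho⟩
    let Y := closedSub Z ⟨irreducibleComponent x₀, isClosed_irreducibleComponent⟩
    let i : Y.Hom Z := closedInc Z ⟨irreducibleComponent x₀, isClosed_irreducibleComponent⟩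
    have hi : i.Closed := closedInc_closed _ _
    have hiimg : i.image = irreducibleComponent x₀ := closedInc_image _ _
    have hYirr : IrreducibleSpace Y.sch := by
      haveI : IsClosedImmersion i.mor := hi
      have hind := i.mor.isClosedEmbedding.isInducing
      have hirr : IsIrreducible i.image := by
        rw [hiimg]; exact isIrreducible_irreducibleComponent
      have h1 : IsPreirreducible (Set.univ : Set Y.sch) := by
        rintro A B hA hB ⟨x, _, hx⟩ ⟨y, _, hy⟩
        obtain ⟨A', hA', rfl⟩ := hind.isOpen_iff.1 hA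
        obtain ⟨B', hB', rfl⟩ := hind.isOpen_iff.1 hB
        obtain ⟨w', ⟨w, rfl⟩, hz1, hz2⟩ := hirr.2 A' B' hA' hB' ⟨_, ⟨x, rfl⟩, hx⟩ ⟨_, ⟨y, rfl⟩, hy⟩
        exact ⟨w, trivial, hz1, hz2⟩
      obtain ⟨_, ⟨w, rfl⟩⟩ := hirr.1
      rw [irreducibleSpace_def]
      exact ⟨⟨w, trivial⟩, h1⟩
    obtain ⟨d, hd, -⟩ := hF Y hYirr
    have hdN : d ≤ N := by
      have h1 : topologicalKrullDim Y.sch ≤ N :=
        (dim_le_of_closed hi).trans ((dim_le_of_closed hz).trans hX)
      rw [hd] at h1
      exact_mod_cast h1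
    -- the class on the open part of `Y`
    have hiO : (restrict i O).Closed := restrict_closed i hi O
    have hiOuniv : ∀ y, y ∈ (restrict i O).image := by
      intro y
      rw [mem_restrict_image, hiimg]
      exact hosub y.2
    have hO'ne : Nonempty (openSub Y (i.mor ⁻¹ᵁ O)).sch := by
      obtain ⟨p, hp⟩ := hone
      obtain ⟨q, _⟩ := hiOuniv ⟨p, hp⟩
      exact ⟨q⟩
    obtain ⟨U₀, j₀, hj₀⟩ := exists_compl' (restrict i O) hiO
    have hU₀ : IsEmpty U₀.sch := by
      refine ⟨fun y => ?_⟩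
      have h1 := hiOuniv (j₀.mor y)
      rw [hj₀.compl] at h1
      exact h1 ⟨y, rfl⟩
    have heO : T.Gen α (T.res (openInc Z O) (openInc_open Z O) m r e) :=
      gen_mapα (fun x => hT.frob_res _ _ m r x) he
    obtain ⟨γ₀, hγ₀⟩ := (hT.exact_res (restrict i O) j₀ hj₀ m r
      (T.res (openInc Z O) (openInc_open Z O) m r e)).1 (hT.empty U₀ hU₀ m r _)
    obtain ⟨γ, hγg, hγ⟩ := gen_liftα (fun y => hT.frob_push (restrict i O) hiO m r y)
      (a := γ₀) (by rw [hγ₀]; exact heO)
    rw [hγ₀] at hγ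
    -- reduction to a smaller closed subset
    have hred : ∀ (V : Var F) (v : V.Hom Z) (hv : v.Open), Nonempty V.sch →
        ∀ e' : T.E Z m r, T.Gen α e' → T.res v hv m r e' = 0 → T.Supported c e' := by
      intro V v hv hV e' he' h0
      obtain ⟨Z₁, i₁, hi₁⟩ := exists_compl v hv
      obtain ⟨δ₀, hδ₀⟩ := (hT.exact_res i₁ v hi₁ m r e').1 h0
      obtain ⟨δ, hδg, hδ⟩ := gen_liftα (fun y => hT.frob_push i₁ hi₁.closed m r y)
        (a := δ₀) (by rw [hδ₀]; exact he')
      rw [hδ₀] at hδ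
      have hcl : (i₁.comp z).Closed := hi₁.closed.comp hz
      have hzinj : Function.Injective z.mor := by
        haveI : IsClosedImmersion z.mor := hz
        exact z.mor.isClosedEmbedding.injective
      have hlt : (⟨(i₁.comp z).image, hcl.isClosed⟩ : Closeds X.sch) < C := by
        rw [← SetLike.coe_ssubset_coe, ← hzC]
        change (i₁.comp z).image ⊂ z.image
        rw [image_comp]
        refine ⟨by rintro _ ⟨y, _, rfl⟩; exact ⟨y, rfl⟩, ?_⟩
        intro hsub
        obtain ⟨y⟩ := hV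
        obtain ⟨w, hw, hwy⟩ := hsub ⟨v.mor y, rfl⟩
        rw [hi₁.compl] at hw
        apply hw
        rw [hzinj hwy]
        exact ⟨y, rfl⟩
      have := (ih ⟨(i₁.comp z).image, hcl.isClosed⟩ hlt Z₁ (i₁.comp z) hcl rfl δ hδg).push hT
        i₁ hi₁.closed
      rwa [hδ] at this
    have himg : ∀ P : Z.sch.Opens, (openInc Y (i.mor ⁻¹ᵁ P)).image =
        i.mor ⁻¹' (openInc Z P).image := by
      intro P
      rw [openInc_image, openInc_image]
      rfl
    rcases Nat.lt_or_ge c d with hcd | hcd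
    · -- the class vanishes at the generic point of `Y`
      obtain ⟨V, v, hv, hV, hv0⟩ := h Y hYirr d hd hcd hdN _ (openInc Y (i.mor ⁻¹ᵁ O))
        (openInc_open _ _) hO'ne γ hγg
      -- the open subset of `Z`
      have hvO : (v.comp (restrict i O)).image = (restrict i O).mor '' v.image := image_comp _ _
      have hopen : IsOpen ((restrict i O).mor '' v.image) := by
        haveI : IsClosedImmersion (restrict i O).mor := hiO
        have hemb := (restrict i O).mor.isClosedEmbedding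
        obtain ⟨A, hA, hAv⟩ := hemb.isInducing.isOpen_iff.1 hv.isOpen
        have : (restrict i O).mor '' v.image = A := by
          rw [← hAv, Set.image_preimage_eq_inter_range]
          ext y
          exact ⟨fun hy => hy.1, fun hy => ⟨hy, hiOuniv y⟩⟩
        rw [this]
        exact hA
      let P : (openSub Z O).sch.Opens := ⟨(restrict i O).mor '' v.image, hopen⟩
      -- restriction to `P`
      have hrestr := hT.base_change (restrict i O) (restrict (restrict i O) P)
        (openInc _ ((restrict i O).mor ⁻¹ᵁ P)) (openInc _ P) hiO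
        (restrict_closed _ hiO P) (openInc_open _ _) (openInc_open _ _)
        (restrict_comp (restrict i O) P) (by
          rw [openInc_image, openInc_image]
          rfl) m r γ
      have hsub : (openInc _ ((restrict i O).mor ⁻¹ᵁ P)).image ⊆ v.image := by
        rw [openInc_image]
        intro y hy
        obtain ⟨w, hw, hwy⟩ := hy
        haveI : IsClosedImmersion (restrict i O).mor := hiO
        rw [← (restrict i O).mor.isClosedEmbedding.injective hwy]
        exact hw
      obtain ⟨k, hk, hkc⟩ := exists_lift (openInc _ ((restrict i O).mor ⁻¹ᵁ P)) v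
        (openInc_open _ _) hv hsub
      have hγ0 : T.res (openInc _ ((restrict i O).mor ⁻¹ᵁ P)) (openInc_open _ _) m r γ = 0 := by
        have h1 : T.res (k.comp v) (hk.comp hv) m r γ = 0 := by
          rw [hT.res_comp k v hk hv _ _ _ γ, hv0, map_zero]
        have h2 : ∀ (f g : (openSub (openSub Y (i.mor ⁻¹ᵁ O))
            ((restrict i O).mor ⁻¹ᵁ P)).Hom (openSub Y (i.mor ⁻¹ᵁ O)))
            (hf : f.Open) (hg : g.Open), f = g → T.res f hf m r γ = T.res g hg m r γ := by
          intro f g hf hg hfg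
          subst hfg
          rfl
        rw [h2 _ _ (openInc_open _ _) (hk.comp hv) hkc.symm, h1]
      rw [hγ0, map_zero, hγ] at hrestr
      refine hred (openSub (openSub Z O) P) ((openInc _ P).comp (openInc Z O))
        ((openInc_open _ _).comp (openInc_open _ _)) ?_ e he ?_
      · obtain ⟨w⟩ := hV
        exact ⟨⟨(restrict i O).mor (v.mor w), ⟨v.mor w, ⟨w, rfl⟩, rfl⟩⟩⟩
      · rw [hT.res_comp (openInc _ P) (openInc Z O) (openInc_open _ _) (openInc_open _ _) _ _ _ e,
          hrestr]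
    · -- the class extends to `Y`
      obtain ⟨D, c', hc'⟩ := exists_compl (openInc Y (i.mor ⁻¹ᵁ O)) (openInc_open _ _)
      have h0 : T.bd c' _ hc' m (m - 1) r (by ring) γ = 0 :=
        hα.1 D _ (gen_mapα (fun y => hT.frob_bd c' _ hc' _ _ _ (by ring) y) hγg)
      obtain ⟨y₀, hy₀⟩ := (hT.exact_bd c' _ hc' _ _ _ (by ring) γ).1 h0
      obtain ⟨y, hyg, hy⟩ := gen_liftα
        (fun x => hT.frob_res (openInc Y (i.mor ⁻¹ᵁ O)) (openInc_open _ _) m r x)
        (a := y₀) (by rw [hy₀]; exact hγg)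
      rw [hy₀] at hy
      have hbase := hT.base_change i (restrict i O) (openInc Y (i.mor ⁻¹ᵁ O)) (openInc Z O) hi hiO
        (openInc_open _ _) (openInc_open _ _) (restrict_comp i O) (himg O) m r y
      rw [hy, hγ] at hbase
      have hyZ : T.Gen α (T.push i hi m r y) := gen_mapα (fun x => hT.frob_push i hi m r x) hyg
      have h1 := hred (openSub Z O) (openInc Z O) (openInc_open _ _)
        (by obtain ⟨p, hp⟩ := hone; exact ⟨⟨p, hp⟩⟩) (e - T.push i hi m r y)
        (Submodule.sub_mem _ he hyZ) (by rw [map_sub, hbase, sub_self])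
      have h2 : T.Supported c (T.push i hi m r y) :=
        Submodule.subset_span ⟨Y, i, hi, by rw [hd]; exact_mod_cast hcd, y, rfl⟩
      have h3 : T.Supported c (e - T.push i hi m r y + T.push i hi m r y) :=
        Submodule.add_mem _ h1 h2
      rwa [sub_add_cancel] at h3
  exact key ⟨(Var.Hom.id X).image, (id_closed X).isClosed⟩ X (Var.Hom.id X) (id_closed X) rfl

/-- Finitely many classes from closed subvarieties of codimension at least two become zero on one
larger proper closed subvariety of affine space. -/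
lemma exists_kill (hT : T.IsHomology) {n c : ℕ} (hcn : c + 2 ≤ n) {m r : ℤ} (l : ℕ) :
    ∀ (W : Var F) (w : W.Hom (affineSpace F n)), w.Closed → w.image ≠ Set.univ →
      ∀ x : Fin l → T.E W m r, (∀ k, T.IsPush c (x k)) →
        ∃ (W' : Var F) (w' : W'.Hom (affineSpace F n)) (k : W.Hom W') (hk : k.Closed),
          w'.Closed ∧ w'.image ≠ Set.univ ∧ k.comp w' = w ∧ ∀ j, T.push k hk m r (x j) = 0 := by
  induction l with
  | zero =>
    intro W w hw hw' x _
    exact ⟨W, w, Var.Hom.id W, id_closed W, hw, hw', Var.Hom.ext' (Category.id_comp _),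
      fun k => k.elim0⟩
  | succ l ih =>
    intro W w hw hw' x hx
    obtain ⟨Z, z, hz, hd, y, hy⟩ := hx 0
    obtain ⟨W₁, w₁, k₁, h₁, hw₁, hw₁', hk₁, hkill⟩ := hT.efface n c hcn W w hw hw' Z z hz hd
    obtain ⟨W₂, w₂, k₂, h₂, hw₂, hw₂', hk₂, hz₂⟩ :=
      ih W₁ w₁ hw₁ hw₁' (fun j => T.push k₁ h₁ m r (x j.succ)) (fun j => by
        obtain ⟨Z', z', hz', hd', y', hy'⟩ := hx j.succ
        exact ⟨Z', z'.comp k₁, hz'.comp h₁, hd', y', by
          rw [hT.push_comp z' k₁ hz' h₁ _ m r y', hy']⟩)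
    refine ⟨W₂, w₂, k₁.comp k₂, h₁.comp h₂, hw₂, hw₂', ?_, ?_⟩
    · rw [← hk₁, ← hk₂]
      exact Var.Hom.ext' (Category.assoc _ _ _)
    · intro j
      rw [hT.push_comp k₁ k₂ h₁ h₂]
      refine Fin.cases ?_ (fun j => ?_) j
      · rw [← hy, hkill, map_zero]
      · exact hz₂ j

theorem rational_of_all (hT : T.IsHomology) {α : K} {m r : ℤ} (hα : T.LowestWeight α m r)
    {c N : ℕ} (h : T.SupportedIn (fun _ => True) α m r c N) : T.RationalFunctionFields α m r c N := by
  intro n hcn hnN U j hj hU e he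
  obtain ⟨W, w, hw⟩ := exists_compl j hj
  have hw' : w.image ≠ Set.univ := by
    rw [hw.compl]
    intro hun
    obtain ⟨y⟩ := hU
    have : j.mor y ∈ (j.image)ᶜ := by rw [hun]; trivial
    exact this ⟨y, rfl⟩
  have hdim : topologicalKrullDim W.sch ≤ N := by
    obtain ⟨d, rfl⟩ : ∃ d, n = d + 1 := ⟨n - 1, by omega⟩
    refine (dim_affineSpace_closed d W w hw.closed hw').trans ?_
    have : d ≤ N := by omega
    exact_mod_cast this
  have hbg : T.Gen α (T.bd w j hw (m + 1) m r rfl e) :=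
    gen_mapα (fun x => hT.frob_bd w j hw _ _ _ rfl x) he
  have hsupp := h W trivial hdim _ hbg
  have hsupp' : T.bd w j hw (m + 1) m r rfl e ∈
      Submodule.span K {x : T.E W m r | T.IsPush c x} := hsupp
  rw [Submodule.mem_span_set'] at hsupp'
  obtain ⟨l, a, g, hag⟩ := hsupp'
  obtain ⟨W', w', c', hc', hw'', hw''', hcw, hkill⟩ :=
    exists_kill hT hcn l W w hw.closed hw' (fun k => (g k).1) (fun k => (g k).2)
  obtain ⟨U', j', hj'⟩ := exists_compl' w' hw''
  have hpush : T.push c' hc' m r (T.bd w j hw (m + 1) m r rfl e) = 0 := by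
    rw [← hag, map_sum]
    refine Finset.sum_eq_zero fun k _ => ?_
    rw [map_smul, hkill, smul_zero]
  have hsub : j'.image ⊆ j.image := by
    have h1 : w.image ⊆ w'.image := by
      rw [← hcw, image_comp]
      rintro _ ⟨y, _, rfl⟩
      exact ⟨y, rfl⟩
    have h2 : (w'.image)ᶜ ⊆ (w.image)ᶜ := Set.compl_subset_compl.2 h1
    rw [hw.compl, hj'.compl, compl_compl, compl_compl] at h2
    exact h2
  obtain ⟨u, hu, huj⟩ := exists_lift j' j hj'.opn hj hsub
  have hb := hT.bd_push w j hw w' j' hj' c' u hc' hu hcw huj (m + 1) m r rfl e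
  rw [hpush] at hb
  obtain ⟨x₀, hx₀⟩ := (hT.exact_bd w' j' hj' (m + 1) m r rfl _).1 hb
  obtain ⟨x, hxg, hx⟩ := gen_liftα (fun y => hT.frob_res j' hj'.opn (m + 1) r y) (a := x₀)
    (by rw [hx₀]; exact gen_mapα (fun y => hT.frob_res u hu (m + 1) r y) he)
  rw [hx₀] at hx
  refine ⟨U', u, hu, nonempty_of_ne' hj' hw''', ?_⟩
  rw [← hx, hα.2 n x hxg, map_zero]

theorem smooth_of_all (S : Var F → Prop) {α : K} {m r : ℤ} {c N : ℕ}
    (h : T.SupportedIn (fun _ => True) α m r c N) : T.SupportedIn S α m r c N :=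
  fun X _ => h X trivial

theorem all_of_smooth (S : Var F → Prop) {α : K} {m r : ℤ} {c N : ℕ}
    (hS : T.Dominating S α m r c N) (h : T.SupportedIn S α m r c N) :
    T.SupportedIn (fun _ => True) α m r c N := by
  intro X _ hX e he
  obtain ⟨Y, hY, hYN, φ, hφ, hsurj⟩ := hS X hX
  obtain ⟨e', he', rfl⟩ := hsurj e he
  exact hφ _ (h Y hY hYN e' he')

theorem tfae_main (hT : T.IsHomology) (hF : HypersurfaceModels F) {α : K} {m r : ℤ}
    (hα : T.LowestWeight α m r) (c N : ℕ) (S : Var F → Prop) (hS : T.Dominating S α m r c N) :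
    [T.RationalFunctionFields α m r c N, T.FunctionFields α m r c N,
      T.SupportedIn (fun _ => True) α m r c N, T.SupportedIn S α m r c N].TFAE := by
  tfae_have 1 → 2 := function_of_rational hT hF hα
  tfae_have 2 → 3 := all_of_function hT hF hα
  tfae_have 3 → 1 := rational_of_all hT hα
  tfae_have 3 → 4 := smooth_of_all S
  tfae_have 4 → 3 := all_of_smooth S hS
  tfae_finish

end BorelMoore

end Pool.Agent.R905.RF
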