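import Pool.Agent.R905.RF.MainGT
import Pool.Agent.R905.RF.DefsSS

/-!
# Jordan blocks of the Frobenius at generic points: proofs
-/

set_option autoImplicit false
set_option linter.all false

open AlgebraicGeometry CategoryTheory TopologicalSpace

namespace Pool.Agent.R905.RF

lemma dim_le_of_irreducible {Z₁ Z : Type} [TopologicalSpace Z₁] [TopologicalSpace Z]
    {f : Z₁ → Z} (hf : Topology.IsClosedEmbedding f) {c : ℕ}
    (h : ∀ (Y : Type) [TopologicalSpace Y] [IrreducibleSpace Y] (g : Y → Z),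
      Topology.IsClosedEmbedding g → Set.range g ⊆ Set.range f → topologicalKrullDim Y ≤ c) :
    topologicalKrullDim Z₁ ≤ c := by
  refine iSup_le fun p => ?_
  obtain ⟨D, hD⟩ : ∃ D : IrreducibleCloseds Z₁, D = p.last := ⟨_, rfl⟩
  haveI : IrreducibleSpace (D : Set Z₁) := Subtype.irreducibleSpace D.isIrreducible
  have h1 := h (D : Set Z₁) (f ∘ Subtype.val)
    (hf.comp D.isClosed.isClosedEmbedding_subtypeVal) (by rintro _ ⟨y, rfl⟩; exact ⟨y.1, rfl⟩)
  refine le_trans ?_ h1
  have h2 : ((Order.height D : ℕ∞) : WithBot ℕ∞) ≤ topologicalKrullDim (D : Set Z₁) := by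
    rw [Order.height_eq_krullDim_Iic]
    let φ : Set.Iic D → IrreducibleCloseds (D : Set Z₁) := fun T =>
      ⟨Subtype.val ⁻¹' (T.1 : Set Z₁), ⟨by
        obtain ⟨x, hx⟩ := T.1.isIrreducible.nonempty
        exact ⟨⟨x, T.2 hx⟩, hx⟩, by
        rintro A B hA hB ⟨x, hx, hxA⟩ ⟨y, hy, hyB⟩
        obtain ⟨A', hA', rfl⟩ := isOpen_induced_iff.1 hA
        obtain ⟨B', hB', rfl⟩ := isOpen_induced_iff.1 hB
        obtain ⟨z, hz, hzA, hzB⟩ := T.1.isIrreducible.2 A' B' hA' hB' ⟨x.1, hx, hxA⟩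
          ⟨y.1, hy, hyB⟩
        exact ⟨⟨z, T.2 hz⟩, hz, hzA, hzB⟩⟩, T.1.isClosed.preimage continuous_subtype_val⟩
    refine Order.krullDim_le_of_strictMono φ ?_
    intro A B hAB
    refine lt_of_le_of_ne ?_ ?_
    · intro x hx
      exact hAB.le hx
    · intro heq
      refine hAB.ne (Subtype.ext (SetLike.coe_injective ?_))
      apply Set.Subset.antisymm
      · exact hAB.le
      · intro x hx
        have : (⟨x, B.2 hx⟩ : (D : Set Z₁)) ∈ φ B := hx
        rw [← heq] at this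
        exact this
  refine le_trans ?_ h2
  rw [hD]
  exact_mod_cast Order.length_le_height_last (p := p)

namespace BorelMoore

variable {F : Type} [Field F] {K : Type} [Field K] {T : BorelMoore F K}

lemma shift_res (hT : T.IsHomology) {U X : Var F} (j : U.Hom X) (h : j.Open) (α : K) (k : ℕ)
    {m r : ℤ} (e : T.E X m r) : T.res j h m r (T.shift α k e) = T.shift α k (T.res j h m r e) :=
  comm_powα (fun x => hT.frob_res j h m r x) k e

lemma shift_push (hT : T.IsHomology) {Z X : Var F} (i : Z.Hom X) (h : i.Closed) (α : K) (k : ℕ)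
    {m r : ℤ} (e : T.E Z m r) :
    T.push i h m r (T.shift α k e) = T.shift α k (T.push i h m r e) :=
  comm_powα (fun x => hT.frob_push i h m r x) k e

lemma shift_bd (hT : T.IsHomology) {Z X U : Var F} (i : Z.Hom X) (j : U.Hom X)
    (h : Complementary i j) (α : K) (k : ℕ) {m r : ℤ} (e : T.E U (m + 1) r) :
    T.bd i j h (m + 1) m r rfl (T.shift α k e) = T.shift α k (T.bd i j h (m + 1) m r rfl e) :=
  comm_powα (fun x => hT.frob_bd i j h (m + 1) m r rfl x) k e

lemma shift_zero' (α : K) (k : ℕ) {X : Var F} {m r : ℤ} : T.shift α k (0 : T.E X m r) = 0 :=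
  map_zero _

lemma vanish_of_bd (hT : T.IsHomology) {U V B U₀ U' : Var F} (v : V.Hom U) (hv : v.Open)
    (i : V.Hom B) (hi : i.Closed) (hyp : IsHypersurface i) (u : U₀.Hom B)
    (hu : Complementary i u) (u' : U'.Hom U₀) (hu' : u'.Open) (hne' : Nonempty U'.sch) {m r : ℤ}
    (β : T.E U₀ (m + 1) r) (e : T.E U m r)
    (hβ : T.bd i u hu (m + 1) m r rfl β = T.res v hv m r e)
    (hβ0 : T.res u' hu' (m + 1) r β = 0) : T.VanishesGenerically e := by
  have hopen : (u'.comp u).Open := hu'.comp hu.opn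
  obtain ⟨O, hO, hOV, hOW⟩ := exists_open_near (Y := B.sch) (V := i.image)
    (W := ((u'.comp u).image)ᶜ) hyp.1 hyp.2.2 hopen.isOpen.isClosed_compl (by
      intro hun
      obtain ⟨y⟩ := hne'
      have : (u'.comp u).mor y ∈ ((u'.comp u).image)ᶜ := by rw [hun]; trivial
      exact this ⟨y, rfl⟩) (by
      rw [hu.compl]
      refine Set.compl_subset_compl.2 ?_
      rw [image_comp]
      rintro _ ⟨y, _, rfl⟩
      exact ⟨y, rfl⟩)
  let OO : B.sch.Opens := ⟨O, hO⟩
  have hcomp := restrict_complementary hu OO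
  have hsub : (openInc U₀ (u.mor ⁻¹ᵁ OO)).image ⊆ u'.image := by
    rw [openInc_image]
    intro y hy
    by_contra hy'
    have h1 : u.mor y ∈ O := hy
    have h2 : u.mor y ∈ ((u'.comp u).image)ᶜ := by
      rintro ⟨w, hw⟩
      apply hy'
      refine ⟨w, ?_⟩
      have hinj : Function.Injective u.mor := by
        haveI : IsOpenImmersion u.mor := hu.opn
        exact u.mor.isOpenEmbedding.injective
      apply hinj
      rw [← hw]
      exact (Scheme.Hom.comp_apply u'.mor u.mor w).symm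
    have h3 := hOW ⟨h1, h2⟩
    rw [hu.compl] at h3
    exact h3 ⟨y, rfl⟩
  obtain ⟨k, hk, hkc⟩ := exists_lift (openInc U₀ (u.mor ⁻¹ᵁ OO)) u' (openInc_open _ _) hu' hsub
  have hβO : T.res (openInc U₀ (u.mor ⁻¹ᵁ OO)) (openInc_open _ _) (m + 1) r β = 0 := by
    have h1 : T.res (k.comp u') (hk.comp hu') (m + 1) r β = 0 := by
      rw [hT.res_comp k u' hk hu' _ _ _ β, hβ0, map_zero]
    have h2 : ∀ (f g : (openSub U₀ (u.mor ⁻¹ᵁ OO)).Hom U₀) (hf : f.Open) (hg : g.Open), f = g →
        T.res f hf (m + 1) r β = T.res g hg (m + 1) r β := by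
      intro f g hf hg hfg
      subst hfg
      rfl
    rw [h2 _ _ (openInc_open _ _) (hk.comp hu') hkc.symm, h1]
  have hres := hT.bd_res i u hu (restrict i OO) (restrict u OO) hcomp
    (openInc V (i.mor ⁻¹ᵁ OO)) (openInc B OO) (openInc U₀ (u.mor ⁻¹ᵁ OO)) (openInc_open _ _)
    (openInc_open _ _) (openInc_open _ _) (restrict_comp i OO) (restrict_comp u OO)
    (m + 1) m r rfl β
  rw [hβO, map_zero, hβ] at hres
  refine ⟨openSub V (i.mor ⁻¹ᵁ OO), (openInc V (i.mor ⁻¹ᵁ OO)).comp v,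
    (openInc_open _ _).comp hv, ?_, ?_⟩
  · obtain ⟨x, ⟨y, rfl⟩, hx⟩ := hOV
    exact ⟨⟨y, hx⟩⟩
  · rw [hT.res_comp (openInc V (i.mor ⁻¹ᵁ OO)) v (openInc_open _ _) hv _ _ _ e, ← hres]

theorem function_of_rational' (hT : T.IsHomology) (hF : HypersurfaceModels F) {W : Set K}
    {m r : ℤ} (hW : ∀ α ∈ W, T.LowestWeight α m r) {k c : ℕ}
    (h : T.BlocksAtGenericPoint W k (affineSpace F (c + 2)) (m + 1) r) :
    T.BlocksOfFunctionFields W k m r (c + 1) := by
  intro X hX hd U j hj hU α hαW e he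
  have hα := hW α hαW
  by_cases hmd : 2 * ((c + 1 : ℕ) : ℤ) < m
  · refine ⟨U, Var.Hom.id U, id_open U, hU, ?_⟩
    have h0 := hT.high U (c + 1) ((dim_le_of_open hj).trans (le_of_eq hd)) m r hmd
      (T.shift α k e)
    rw [h0, map_zero]
  obtain ⟨d', hd', hmod⟩ := hF X hX
  have hdd : d' = c + 1 := by
    have := hd'.symm.trans hd
    exact_mod_cast this
  subst hdd
  obtain ⟨V, v, B, b, i, hv, hV, hb, hi, hyp⟩ := hmod U j hj hU
  have hαg : T.Gen α (T.res v hv m r e) := gen_mapα (fun x => hT.frob_res v hv m r x) he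
  have hB : ∀ x : T.E B m r, T.Gen α x → x = 0 := by
    intro x hx
    obtain ⟨C, c', hc⟩ := exists_compl b hb
    have h0 : T.bd c' b hc m (m - 1) r (by ring) x = 0 :=
      hα.1 C _ (gen_mapα (fun y => hT.frob_bd c' b hc _ _ _ (by ring) y) hx)
    obtain ⟨y, hy⟩ := (hT.exact_bd c' b hc _ _ _ (by ring) x).1 h0
    rw [← hy, hT.affine (c + 1 + 1) m r (by push_cast at hmd ⊢; omega) y, map_zero]
  obtain ⟨U₀, u, hu⟩ := exists_compl' i hi
  have hpush : T.push i hi m r (T.res v hv m r e) = 0 :=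
    hB _ (gen_mapα (fun x => hT.frob_push i hi m r x) hαg)
  obtain ⟨β₀, hβ₀⟩ := (hT.exact_push i u hu (m + 1) m r rfl _).1 hpush
  obtain ⟨β, hβg, hβ⟩ := gen_liftα (fun x => hT.frob_bd i u hu (m + 1) m r rfl x)
    (a := β₀) (by rw [hβ₀]; exact hαg)
  rw [hβ₀] at hβ
  have hU₀ : Nonempty U₀.sch := nonempty_of_ne' hu hyp.2.1
  obtain ⟨U', u', hu', hne', hβ0⟩ := h U₀ (u.comp b) (hu.opn.comp hb) hU₀ α hαW β hβg
  refine vanish_of_bd hT v hv i hi hyp u hu u' hu' hne' (T.shift α k β) _ ?_ hβ0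
  rw [shift_bd hT, hβ, shift_res hT]

lemma push_injective (hT : T.IsHomology) {Z X : Var F} (i : Z.Hom X) (hi : i.Closed)
    (hu : i.image = Set.univ) {m r : ℤ} (z : T.E Z m r) (h : T.push i hi m r z = 0) : z = 0 := by
  obtain ⟨U, j, hj⟩ := exists_compl' i hi
  have hU : IsEmpty U.sch := by
    refine ⟨fun y => ?_⟩
    have h1 : j.mor y ∈ i.image := by rw [hu]; trivial
    rw [hj.compl] at h1
    exact h1 ⟨y, rfl⟩
  obtain ⟨e, he⟩ := (hT.exact_push i j hj (m + 1) m r rfl z).1 h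
  rw [← he, hT.empty U hU _ _ e, map_zero]

lemma res_injective (hT : T.IsHomology) {U X : Var F} (j : U.Hom X) (hj : j.Open)
    (hu : j.image = Set.univ) {m r : ℤ} (x : T.E X m r) (h : T.res j hj m r x = 0) : x = 0 := by
  obtain ⟨Z, i, hi⟩ := exists_compl j hj
  have hZ : IsEmpty Z.sch := by
    refine ⟨fun y => ?_⟩
    have h1 : i.mor y ∈ i.image := ⟨y, rfl⟩
    rw [hi.compl, hu] at h1
    exact h1 trivial
  obtain ⟨z, hz⟩ := (hT.exact_res i j hi m r x).1 h
  rw [← hz, hT.empty Z hZ _ _ z, map_zero]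

/-- `x` vanishes on all open subvarieties contained in `Q`. -/
def Van (T : BorelMoore F K) {Z : Var F} {m r : ℤ} (x : T.E Z m r) (Q : Set Z.sch) : Prop :=
  ∀ (V : Var F) (v : V.Hom Z) (hv : v.Open), v.image ⊆ Q → T.res v hv m r x = 0

lemma van_of_res (hT : T.IsHomology) {V Z : Var F} (v : V.Hom Z) (hv : v.Open) {m r : ℤ}
    {x : T.E Z m r} (h : T.res v hv m r x = 0) : T.Van x v.image := by
  intro V' v' hv' hsub
  obtain ⟨k, hk, hkc⟩ := exists_lift v' v hv' hv hsub
  have h1 : T.res (k.comp v) (hk.comp hv) m r x = 0 := by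
    rw [hT.res_comp k v hk hv _ _ _ x, h, map_zero]
  have h2 : ∀ (f g : V'.Hom Z) (hf : f.Open) (hg : g.Open), f = g →
      T.res f hf m r x = T.res g hg m r x := by
    intro f g hf hg hfg
    subst hfg
    rfl
  rw [h2 _ _ hv' (hk.comp hv) hkc.symm, h1]

lemma van_union (hT : T.IsHomology) {Z : Var F} {m r : ℤ} {x : T.E Z m r} {A B : Set Z.sch}
    (hA : IsOpen A) (hB : IsOpen B) (hAB : Disjoint A B) (h1 : T.Van x A) (h2 : T.Van x B) :
    T.Van x (A ∪ B) := by
  intro V v hv hsub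
  have hcont : Continuous v.mor := v.mor.continuous
  let OA : V.sch.Opens := ⟨v.mor ⁻¹' A, hA.preimage hcont⟩
  let OB : V.sch.Opens := ⟨v.mor ⁻¹' B, hB.preimage hcont⟩
  have hcov : ∀ y : V.sch, y ∈ OA ∨ y ∈ OB := fun y => hsub ⟨y, rfl⟩
  have hresA : T.res (openInc V OA) (openInc_open _ _) m r (T.res v hv m r x) = 0 := by
    rw [← hT.res_comp (openInc V OA) v (openInc_open _ _) hv ((openInc_open _ _).comp hv)]
    refine h1 _ _ _ ?_
    rw [image_comp, openInc_image]
    rintro _ ⟨y, hy, rfl⟩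
    exact hy
  have hresB : T.res (openInc V OB) (openInc_open _ _) m r (T.res v hv m r x) = 0 := by
    rw [← hT.res_comp (openInc V OB) v (openInc_open _ _) hv ((openInc_open _ _).comp hv)]
    refine h2 _ _ _ ?_
    rw [image_comp, openInc_image]
    rintro _ ⟨y, hy, rfl⟩
    exact hy
  obtain ⟨Z', i', hi'⟩ := exists_compl (openInc V OA) (openInc_open _ _)
  obtain ⟨w, hw⟩ := (hT.exact_res i' _ hi' m r _).1 hresA
  have hmemB : ∀ z : Z'.sch, i'.mor z ∈ OB := by
    intro z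
    have h3 : i'.mor z ∈ i'.image := ⟨z, rfl⟩
    rw [hi'.compl, openInc_image] at h3
    exact (hcov _).resolve_left h3
  have himg : ∀ y ∈ OB, y ∈ i'.image := by
    intro y hy
    rw [hi'.compl, openInc_image]
    intro hyA
    exact Set.disjoint_left.1 hAB hyA hy
  have hbase := hT.base_change i' (restrict i' OB) (openInc Z' (i'.mor ⁻¹ᵁ OB)) (openInc V OB)
    hi'.closed (restrict_closed _ hi'.closed OB) (openInc_open _ _) (openInc_open _ _)
    (restrict_comp i' OB) (by rw [openInc_image, openInc_image]; rfl) m r w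
  rw [hw, hresB] at hbase
  have h4 := push_injective hT (restrict i' OB) (restrict_closed _ hi'.closed OB) (by
    refine Set.eq_univ_of_forall fun y => ?_
    rw [mem_restrict_image]
    exact himg _ y.2) _ hbase.symm
  have h5 := res_injective hT (openInc Z' (i'.mor ⁻¹ᵁ OB)) (openInc_open _ _) (by
    rw [openInc_image]
    exact Set.eq_univ_of_forall fun z => hmemB z) _ h4
  rw [← hw, h5, map_zero]

theorem all_of_function' (hT : T.IsHomology) (hF : HypersurfaceModels F) {W : Set K} {m r : ℤ}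
    {k c : ℕ} (h : T.BlocksOfFunctionFields W k m r (c + 1)) (X : Var F)
    (hX : topologicalKrullDim X.sch ≤ ((c + 1 : ℕ) : WithBot ℕ∞)) {α : K} (hαW : α ∈ W)
    (e : T.E X m r) (he : T.Gen α e) : T.IsPush c (T.shift α k e) := by
  obtain ⟨x, hx⟩ : ∃ x, x = T.shift α k e := ⟨_, rfl⟩
  have wf : WellFounded (fun A B : Opens X.sch => A > B) := wellFounded_gt
  obtain ⟨Q, hQ, hmax⟩ := wf.has_min {Q : Opens X.sch | T.Van x (Q : Set X.sch)} ⟨⊥, by
    intro V v hv hsub
    have hV : IsEmpty V.sch := ⟨fun y => hsub ⟨y, rfl⟩⟩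
    exact hT.empty V hV _ _ (T.res v hv m r x)⟩
  obtain ⟨Z, i, hi⟩ := exists_compl (openInc X Q) (openInc_open _ _)
  obtain ⟨δ, hδ⟩ := (hT.exact_res i _ hi m r x).1
    (hQ _ _ (openInc_open X Q) (openInc_image X Q).le)
  refine ⟨Z, i, hi.closed, ?_, δ, by rw [hδ, hx]⟩
  haveI : IsClosedImmersion i.mor := hi.closed
  refine dim_le_of_irreducible i.mor.isClosedEmbedding fun Y _ _ g hg hgi => ?_
  by_contra hdim
  let D : Closeds X.sch := ⟨Set.range g, hg.isClosed_range⟩
  have hDirr : IsIrreducible (D : Set X.sch) := by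
    have := (IrreducibleSpace.isIrreducible_univ Y).image g hg.continuous.continuousOn
    rwa [Set.image_univ] at this
  let YY := closedSub X D
  let q : YY.Hom X := closedInc X D
  have hq : q.Closed := closedInc_closed _ _
  have hqimg : q.image = (D : Set X.sch) := closedInc_image _ _
  haveI : IsClosedImmersion q.mor := hq
  have hYYirr : IrreducibleSpace YY.sch := by
    have hind := q.mor.isClosedEmbedding.isInducing
    have hirr : IsIrreducible q.image := by rw [hqimg]; exact hDirr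
    have h1 : IsPreirreducible (Set.univ : Set YY.sch) := by
      rintro A B hA hB ⟨x, _, hx⟩ ⟨y, _, hy⟩
      obtain ⟨A', hA', rfl⟩ := hind.isOpen_iff.1 hA
      obtain ⟨B', hB', rfl⟩ := hind.isOpen_iff.1 hB
      obtain ⟨w', ⟨w, rfl⟩, hz1, hz2⟩ := hirr.2 A' B' hA' hB' ⟨_, ⟨x, rfl⟩, hx⟩ ⟨_, ⟨y, rfl⟩, hy⟩
      exact ⟨w, trivial, hz1, hz2⟩
    obtain ⟨_, ⟨w, rfl⟩⟩ := hirr.1
    rw [irreducibleSpace_def]
    exact ⟨⟨w, trivial⟩, h1⟩
  have hdimle : topologicalKrullDim Y ≤ topologicalKrullDim YY.sch := by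
    have hfac : ∀ y, ∃ z, q.mor z = g y := fun y => by
      have : g y ∈ q.image := by rw [hqimg]; exact ⟨y, rfl⟩
      exact this
    choose s hs using hfac
    have hcomp : q.mor ∘ s = g := funext hs
    have hind : Topology.IsInducing s :=
      (q.mor.isClosedEmbedding.isInducing.of_comp_iff).1 (by rw [hcomp]; exact hg.isInducing)
    exact hind.topologicalKrullDim_le
  obtain ⟨d, hd, -⟩ := hF YY hYYirr
  have hd1 : d = c + 1 := by
    have h1 : topologicalKrullDim YY.sch ≤ ((c + 1 : ℕ) : WithBot ℕ∞) :=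
      (dim_le_of_closed hq).trans hX
    rw [hd] at h1
    have h2 : d ≤ c + 1 := by exact_mod_cast h1
    have h3 : ¬ d ≤ c := by
      intro h4
      apply hdim
      refine hdimle.trans ?_
      rw [hd]
      exact_mod_cast h4
    omega
  obtain ⟨u, hu, hDu⟩ := exists_mem_irreducibleComponents_subset_of_isIrreducible
    (D : Set X.sch) hDirr
  have huD : u = D := by
    by_contra hne
    have huc : IsClosed u := isClosed_of_mem_irreducibleComponents u hu
    haveI : IrreducibleSpace u := Subtype.irreducibleSpace hu.1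
    let g' : Y → u := fun y => ⟨g y, hDu ⟨y, rfl⟩⟩
    have hg' : Topology.IsClosedEmbedding g' :=
      (huc.isClosedEmbedding_subtypeVal.of_comp_iff).1 hg
    refine hdim (dim_lt_of_closed hg' ?_
      ((topologicalKrullDim_subspace_le X.sch u).trans hX))
    intro hun
    apply hne
    refine Set.Subset.antisymm ?_ hDu
    intro z hz
    have h1 : (⟨z, hz⟩ : u) ∈ Set.range g' := by rw [hun]; trivial
    obtain ⟨y, hy⟩ := h1
    exact ⟨y, congrArg Subtype.val hy⟩
  obtain ⟨o, ho, hone, hosub⟩ :=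
    NoetherianSpace.exists_isOpen_nonempty_subset_irreducibleComponent u hu
  rw [huD] at hosub
  let O : X.sch.Opens := ⟨o, ho⟩
  have hiO : (restrict q O).Closed := restrict_closed q hq O
  have hiOuniv : ∀ y, y ∈ (restrict q O).image := by
    intro y
    rw [mem_restrict_image, hqimg]
    exact hosub y.2
  have hO'ne : Nonempty (openSub YY (q.mor ⁻¹ᵁ O)).sch := by
    obtain ⟨p, hp⟩ := hone
    obtain ⟨w, _⟩ := hiOuniv ⟨p, hp⟩
    exact ⟨w⟩
  obtain ⟨U₀, j₀, hj₀⟩ := exists_compl' (restrict q O) hiO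
  have hU₀ : IsEmpty U₀.sch := by
    refine ⟨fun y => ?_⟩
    have h1 := hiOuniv (j₀.mor y)
    rw [hj₀.compl] at h1
    exact h1 ⟨y, rfl⟩
  have heO : T.Gen α (T.res (openInc X O) (openInc_open X O) m r e) :=
    gen_mapα (fun x => hT.frob_res _ _ m r x) he
  obtain ⟨γ₀, hγ₀⟩ := (hT.exact_res (restrict q O) j₀ hj₀ m r
    (T.res (openInc X O) (openInc_open X O) m r e)).1 (hT.empty U₀ hU₀ m r _)
  obtain ⟨γ, hγg, hγ⟩ := gen_liftα (fun y => hT.frob_push (restrict q O) hiO m r y)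
    (a := γ₀) (by rw [hγ₀]; exact heO)
  rw [hγ₀] at hγ
  obtain ⟨V, v, hv, hV, hv0⟩ := h YY hYYirr (by rw [hd, hd1]) (openSub YY (q.mor ⁻¹ᵁ O))
    (openInc YY (q.mor ⁻¹ᵁ O)) (openInc_open _ _) hO'ne α hαW γ hγg
  have hopen : IsOpen ((restrict q O).mor '' v.image) := by
    haveI : IsClosedImmersion (restrict q O).mor := hiO
    have hemb := (restrict q O).mor.isClosedEmbedding
    obtain ⟨A, hA, hAv⟩ := hemb.isInducing.isOpen_iff.1 hv.isOpen
    have : (restrict q O).mor '' v.image = A := by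
      rw [← hAv, Set.image_preimage_eq_inter_range]
      ext y
      exact ⟨fun hy => hy.1, fun hy => ⟨hy, hiOuniv y⟩⟩
    rw [this]
    exact hA
  let P : (openSub X O).sch.Opens := ⟨(restrict q O).mor '' v.image, hopen⟩
  have hrestr := hT.base_change (restrict q O) (restrict (restrict q O) P)
    (openInc _ ((restrict q O).mor ⁻¹ᵁ P)) (openInc _ P) hiO
    (restrict_closed _ hiO P) (openInc_open _ _) (openInc_open _ _)
    (restrict_comp (restrict q O) P) (by
      rw [openInc_image, openInc_image]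
      rfl) m r (T.shift α k γ)
  have hsub : (openInc _ ((restrict q O).mor ⁻¹ᵁ P)).image ⊆ v.image := by
    rw [openInc_image]
    intro y hy
    obtain ⟨w, hw, hwy⟩ := hy
    haveI : IsClosedImmersion (restrict q O).mor := hiO
    rw [← (restrict q O).mor.isClosedEmbedding.injective hwy]
    exact hw
  have hγ0 : T.res (openInc _ ((restrict q O).mor ⁻¹ᵁ P)) (openInc_open _ _) m r
      (T.shift α k γ) = 0 := van_of_res hT v hv hv0 _ _ _ hsub
  rw [hγ0, map_zero, shift_push hT, hγ, ← shift_res hT, ← hx] at hrestr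
  have hres : T.res ((openInc (openSub X O) P).comp (openInc X O))
      ((openInc_open _ _).comp (openInc_open _ _)) m r x = 0 := by
    rw [hT.res_comp (openInc _ P) (openInc X O) (openInc_open _ _) (openInc_open _ _) _ _ _ x,
      hrestr]
  have hvan := van_of_res hT _ _ hres
  have hRo : IsOpen ((openInc (openSub X O) P).comp (openInc X O)).image :=
    Var.Hom.Open.isOpen ((openInc_open _ _).comp (openInc_open _ _))
  have hRsub : ((openInc (openSub X O) P).comp (openInc X O)).image ⊆ (Q : Set X.sch)ᶜ := by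
    rw [image_comp]
    rintro _ ⟨y, _, rfl⟩
    have h1 : (openInc X O).mor y ∈ (D : Set X.sch) := hosub (by
      have : (openInc X O).mor y ∈ (openInc X O).image := ⟨y, rfl⟩
      rw [openInc_image] at this
      exact this)
    have h2 := hgi h1
    have h3 : (openInc X O).mor y ∈ i.image := h2
    rw [hi.compl, openInc_image] at h3
    exact h3
  have hdisj : Disjoint (Q : Set X.sch)
      ((openInc (openSub X O) P).comp (openInc X O)).image :=
    Set.disjoint_left.2 fun y hy hy' => hRsub hy' hy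
  have hun := van_union hT Q.isOpen hRo hdisj hQ hvan
  refine hmax (Q ⊔ ⟨_, hRo⟩) hun ?_
  refine lt_of_le_of_ne le_sup_left ?_
  intro heq
  obtain ⟨w⟩ := hV
  have hmem : (openInc X O).mor ((openInc (openSub X O) P).mor
      ⟨(restrict q O).mor (v.mor w), ⟨v.mor w, ⟨w, rfl⟩, rfl⟩⟩) ∈
      ((openInc (openSub X O) P).comp (openInc X O)).image := by
    rw [image_comp]
    exact ⟨_, ⟨_, rfl⟩, rfl⟩
  have h1 : (openInc X O).mor ((openInc (openSub X O) P).mor
      ⟨(restrict q O).mor (v.mor w), ⟨v.mor w, ⟨w, rfl⟩, rfl⟩⟩) ∈ Q ⊔ ⟨_, hRo⟩ := Or.inr hmem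
  rw [← heq] at h1
  exact hRsub hmem h1

lemma gen_shift {α : K} (k : ℕ) {X : Var F} {m r : ℤ} {e : T.E X m r} (he : T.Gen α e) :
    T.Gen α (T.shift α k e) := by
  unfold Gen at he ⊢
  rw [mem_genα] at he ⊢
  obtain ⟨n, hn⟩ := he
  refine ⟨n, ?_⟩
  unfold shift
  rw [← Module.End.mul_apply, ← pow_add, add_comm, pow_add, Module.End.mul_apply, hn, map_zero]

theorem rational_of_all' (hT : T.IsHomology) {W : Set K} {m r : ℤ}
    (hW : ∀ α ∈ W, T.LowestWeight α m r) {k c : ℕ}
    (h : ∀ X : Var F, topologicalKrullDim X.sch ≤ ((c + 1 : ℕ) : WithBot ℕ∞) → ∀ α ∈ W,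
      ∀ e : T.E X m r, T.Gen α e → T.IsPush c (T.shift α k e)) :
    T.BlocksAtGenericPoint W k (affineSpace F (c + 2)) (m + 1) r := by
  intro U j hj hU α hαW e he
  have hα := hW α hαW
  obtain ⟨W₁, w, hw⟩ := exists_compl j hj
  have hw' : w.image ≠ Set.univ := by
    rw [hw.compl]
    intro hun
    obtain ⟨y⟩ := hU
    have : j.mor y ∈ (j.image)ᶜ := by rw [hun]; trivial
    exact this ⟨y, rfl⟩
  have hdim : topologicalKrullDim W₁.sch ≤ ((c + 1 : ℕ) : WithBot ℕ∞) :=
    dim_affineSpace_closed (c + 1) W₁ w hw.closed hw'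
  have hbg : T.Gen α (T.bd w j hw (m + 1) m r rfl e) :=
    gen_mapα (fun x => hT.frob_bd w j hw _ _ _ rfl x) he
  obtain ⟨Z, z, hz, hd, y, hy⟩ := h W₁ hdim α hαW _ hbg
  obtain ⟨W', w', c', hc', hw₂, hw₃, hcw, hkill⟩ :=
    hT.efface (c + 2) c le_rfl W₁ w hw.closed hw' Z z hz hd
  obtain ⟨U', j', hj'⟩ := exists_compl' w' hw₂
  have hpush : T.push c' hc' m r (T.bd w j hw (m + 1) m r rfl (T.shift α k e)) = 0 := by
    rw [shift_bd hT, ← hy, hkill]
  have hsub : j'.image ⊆ j.image := by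
    have h1 : w.image ⊆ w'.image := by
      rw [← hcw, image_comp]
      rintro _ ⟨y, _, rfl⟩
      exact ⟨y, rfl⟩
    have h2 : (w'.image)ᶜ ⊆ (w.image)ᶜ := Set.compl_subset_compl.2 h1
    rw [hw.compl, hj'.compl, compl_compl, compl_compl] at h2
    exact h2
  obtain ⟨u, hu, huj⟩ := exists_lift j' j hj'.opn hj hsub
  have hb := hT.bd_push w j hw w' j' hj' c' u hc' hu hcw huj (m + 1) m r rfl (T.shift α k e)
  rw [hpush] at hb
  obtain ⟨x₀, hx₀⟩ := (hT.exact_bd w' j' hj' (m + 1) m r rfl _).1 hb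
  obtain ⟨x, hxg, hx⟩ := gen_liftα (fun y => hT.frob_res j' hj'.opn (m + 1) r y) (a := x₀)
    (by rw [hx₀]; exact gen_mapα (fun y => hT.frob_res u hu (m + 1) r y) (gen_shift k he))
  rw [hx₀] at hx
  refine ⟨U', u, hu, nonempty_of_ne' hj' hw₃, ?_⟩
  rw [← hx, hα.2 (c + 2) x hxg, map_zero]

lemma exists_van (hT : T.IsHomology) {Y : Var F} (hY : IrreducibleSpace Y.sch) {c : ℕ}
    (hd : topologicalKrullDim Y.sch = ((c + 1 : ℕ) : WithBot ℕ∞)) {m r : ℤ} {x : T.E Y m r}
    (hx : T.Supported c x) :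
    ∃ Q : Set Y.sch, IsOpen Q ∧ Q.Nonempty ∧ T.Van x Q := by
  have h' : x ∈ Submodule.span K {x : T.E Y m r | T.IsPush c x} := hx
  clear hx
  induction h' using Submodule.span_induction with
  | mem x hx =>
    obtain ⟨Z, i, hi, hdZ, z, rfl⟩ := hx
    obtain ⟨U, j, hj⟩ := exists_compl' i hi
    have hne : i.image ≠ Set.univ := by
      intro hun
      haveI : IsClosedImmersion i.mor := hi
      have hhom : IsHomeomorph i.mor :=
        (isHomeomorph_iff_isEmbedding_surjective).2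
          ⟨i.mor.isClosedEmbedding.isEmbedding, Set.range_eq_univ.1 hun⟩
      have h1 := hhom.topologicalKrullDim_eq
      rw [h1, hd] at hdZ
      have h2 : c + 1 ≤ c := by exact_mod_cast hdZ
      omega
    refine ⟨j.image, hj.opn.isOpen, ?_, ?_⟩
    · obtain ⟨y⟩ := nonempty_of_ne' hj hne
      exact ⟨_, y, rfl⟩
    · exact van_of_res hT j hj.opn ((hT.exact_res i j hj m r _).2 ⟨z, rfl⟩)
  | zero =>
    exact ⟨Set.univ, isOpen_univ, ⟨(hY.toNonempty).some, trivial⟩, fun V v hv _ => map_zero _⟩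
  | add x y hx hy ihx ihy =>
    obtain ⟨Q, hQ, hQne, hQv⟩ := ihx
    obtain ⟨R, hR, hRne, hRv⟩ := ihy
    refine ⟨Q ∩ R, hQ.inter hR, nonempty_preirreducible_inter hQ hR hQne hRne, ?_⟩
    intro V v hv hsub
    rw [map_add, hQv V v hv (hsub.trans Set.inter_subset_left),
      hRv V v hv (hsub.trans Set.inter_subset_right), add_zero]
  | smul a x hx ih =>
    obtain ⟨Q, hQ, hQne, hQv⟩ := ih
    refine ⟨Q, hQ, hQne, ?_⟩
    intro V v hv hsub
    rw [map_smul, hQv V v hv hsub, smul_zero]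

theorem function_of_smooth' (hT : T.IsHomology) {W : Set K} {m r : ℤ}
    (hW : ∀ α ∈ W, T.LowestWeight α m r) {k c : ℕ} {S : Var F → Prop}
    (hS : T.Alterations S m r (c + 1))
    (h : ∀ Y : Var F, S Y → IrreducibleSpace Y.sch →
      topologicalKrullDim Y.sch = ((c + 1 : ℕ) : WithBot ℕ∞) → ∀ α ∈ W, ∀ e : T.E Y m r,
        T.Gen α e → T.Supported c (T.shift α k e)) :
    T.BlocksOfFunctionFields W k m r (c + 1) := by
  intro X hX hd U j hj hU α hαW e he
  have hα := hW α hαW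
  obtain ⟨U', j', V, Y, v, hj', hv, hV, hY, hYirr, hYd, ψ, hψ, hψg⟩ := hS X hX hd U j hj hU
  have he' : T.Gen α (T.res j' hj' m r e) := gen_mapα (fun x => hT.frob_res j' hj' m r x) he
  have hψe : T.Gen α (ψ (T.res j' hj' m r e)) := gen_mapα hψ he'
  obtain ⟨D, c', hc'⟩ := exists_compl v hv
  have h0 : T.bd c' _ hc' m (m - 1) r (by ring) (ψ (T.res j' hj' m r e)) = 0 :=
    hα.1 D _ (gen_mapα (fun y => hT.frob_bd c' _ hc' _ _ _ (by ring) y) hψe)
  obtain ⟨y₀, hy₀⟩ := (hT.exact_bd c' _ hc' _ _ _ (by ring) _).1 h0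
  obtain ⟨y, hyg, hy⟩ := gen_liftα (fun x => hT.frob_res v hv m r x)
    (a := y₀) (by rw [hy₀]; exact hψe)
  rw [hy₀] at hy
  obtain ⟨Q, hQ, hQne, hQv⟩ := exists_van hT hYirr hYd (h Y hY hYirr hYd α hαW y hyg)
  have hVQ : (v.image ∩ Q).Nonempty := by
    haveI := hYirr
    exact nonempty_preirreducible_inter hv.isOpen hQ
      (by obtain ⟨w⟩ := hV; exact ⟨_, w, rfl⟩) hQne
  let O : V.sch.Opens := ⟨v.mor ⁻¹' Q, hQ.preimage v.mor.continuous⟩
  have h1 : T.VanishesGenerically (ψ (T.shift α k (T.res j' hj' m r e))) := by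
    refine ⟨openSub V O, openInc V O, openInc_open _ _, ?_, ?_⟩
    · obtain ⟨_, ⟨w, rfl⟩, hw⟩ := hVQ
      exact ⟨⟨w, hw⟩⟩
    · have h2 : ψ (T.shift α k (T.res j' hj' m r e)) = T.res v hv m r (T.shift α k y) := by
        rw [shift_res hT, hy]
        exact comm_powα hψ k _
      rw [h2, ← hT.res_comp (openInc V O) v (openInc_open _ _) hv ((openInc_open _ _).comp hv)]
      refine hQv _ _ _ ?_
      rw [image_comp, openInc_image]
      rintro _ ⟨w, hw, rfl⟩
      exact hw
  obtain ⟨V', v', hv', hV', h3⟩ := hψg _ h1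
  refine ⟨V', v'.comp j', hv'.comp hj', hV', ?_⟩
  rw [hT.res_comp v' j' hv' hj', shift_res hT, h3]

theorem tfae_blocks (hT : T.IsHomology) (hF : HypersurfaceModels F) {W : Set K} {m r : ℤ}
    (hW : ∀ α ∈ W, T.LowestWeight α m r) (k c : ℕ) {S : Var F → Prop}
    (hP : T.Pure S W m r (c + 1)) (hS : T.Alterations S m r (c + 1)) (hk : T.Splits S k m r c) :
    [T.BlocksAtGenericPoint W k (affineSpace F (c + 2)) (m + 1) r,
      T.BlocksOfFunctionFields W k m r (c + 1), T.Blocks S k m r (c + 1)].TFAE := by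
  have h23 : T.BlocksOfFunctionFields W k m r (c + 1) → T.Blocks S k m r (c + 1) := by
    intro h X hX hirr hd α e he
    by_cases hαW : α ∈ W
    · refine hk X hX hirr hd α e he ?_
      exact Submodule.subset_span (all_of_function' hT hF h X (le_of_eq hd) hαW e he)
    · rw [hP X hX hirr hd α hαW e he, shift_zero']
  tfae_have 1 → 2 := function_of_rational' hT hF hW
  tfae_have 2 → 1 := fun h => rational_of_all' hT hW fun X hX α hαW e he =>
    all_of_function' hT hF h X hX hαW e he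
  tfae_have 2 → 3 := h23
  tfae_have 3 → 2 := fun h => function_of_smooth' hT hW hS fun Y hY hirr hd α hαW e he => by
    rw [h Y hY hirr hd α e he]
    exact Submodule.zero_mem _
  tfae_finish

end BorelMoore

end Pool.Agent.R905.RF
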