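import Pool.Agent.R905.RF.Main

/-!
# The Tate conjecture for divisors and the field of rational functions in three variables
-/

set_option autoImplicit false
set_option linter.all false

namespace Pool.Agent.R905.RF

variable {F : Type} [Field F] {K : Type} [Field K]

namespace Theory

/-- Let `Br X` be the Brauer group of `X`. For all varieties `X` of dimension at most two in the class
`S` (for instance the smooth projective ones) it is finite if and only if the Tate conjecture for cycles
of dimension one holds for `X`, and the eigenvalue one is semisimple: the theorem of Tate and Milne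
(Tate showed that for surfaces the second condition follows from the first one). -/
def TateMilne (T : Theory F K) (S : Var F → Prop) (Br : Var F → Type) : Prop :=
  ∀ X : Var F, S X → topologicalKrullDim X.sch ≤ (2 : ℕ) →
    (Finite (Br X) ↔ T.TateSemisimple (fun Y => Y = X) 1 2)

/-- The Tate conjecture for divisors, and the semisimplicity of the eigenvalue one on
`H^2(Ȳ, ℚ_ℓ(1)) = H_{2n}^{BM}(Ȳ)(-n)`, for all varieties `Y` of dimension `n + 1 ≥ 1` in the class `S`:
the space of invariants is spanned by the classes of divisors, and its dimension is the multiplicity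
of the eigenvalue one. -/
def TateForDivisors (T : Theory F K) (S : Var F → Prop) : Prop :=
  ∀ Y : Var F, S Y → ∀ n : ℕ, topologicalKrullDim Y.sch = ((n + 1 : ℕ) : WithBot ℕ∞) →
    T.TateSemisimple (fun Z => Z = Y) n (n + 1)

variable {T : Theory F K}

lemma rational_iff : T.RationalFunctionFields 1 2 ↔ T.NoGenericInvariants (affineSpace F 3) 3 1 :=
  ⟨fun h => h 3 le_rfl le_rfl, fun h n h1 h2 => by
    obtain rfl : n = 3 := by omega
    exact h⟩

theorem tfae_brauer (hT : T.IsBorelMoore) (hF : HypersurfaceModels F) {S : Var F → Prop}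
    (hS : T.Dominating S 1 2) {Br : Var F → Type} (hBr : T.TateMilne S Br) :
    [T.NoGenericInvariants (affineSpace F 3) 3 1, T.FunctionFields 1 2,
      ∀ X : Var F, S X → topologicalKrullDim X.sch ≤ (2 : ℕ) → Finite (Br X)].TFAE := by
  have h := tfae_main hT hF 1 2 S hS
  tfae_have 1 ↔ 2 := rational_iff.symm.trans (h.out 0 1)
  tfae_have 2 ↔ 3 := by
    rw [show T.FunctionFields 1 2 ↔ T.TateSemisimple S 1 2 from h.out 1 3]
    constructor
    · intro h' X hX hd
      refine (hBr X hX hd).2 ?_
      rintro Y rfl hY
      exact h' Y hX hY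
    · intro h' X hX hd
      exact (hBr X hX hd).1 (h' X hX hd) X rfl hd
  tfae_finish

lemma dim_cases {x : WithBot ℕ∞} (h : x ≤ (2 : ℕ)) : x ≤ (1 : ℕ) ∨ x = ((1 + 1 : ℕ) : WithBot ℕ∞) := by
  rcases lt_or_eq_of_le h with h | h
  · left
    induction x using WithBot.recBotCoe with
    | bot => exact bot_le
    | coe x =>
      induction x using ENat.recTopCoe with
      | top => exact absurd h (not_lt_of_ge (by exact_mod_cast le_top))
      | coe n =>
        have h1 : n < 2 := by
          have h3 : ((n : ℕ∞) : WithBot ℕ∞) < (((2 : ℕ) : ℕ∞) : WithBot ℕ∞) := h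
          rw [WithBot.coe_lt_coe, Nat.cast_lt] at h3
          exact h3
        have h2 : n ≤ 1 := by omega
        exact_mod_cast h2
  · right
    rw [h]

lemma semisimple_of_algebraic (hT : T.IsBorelMoore) {X : Var F} {a : ℕ} {e : T.E X (2 * a) a}
    (h : T.Algebraic e) : T.frob X (2 * a) a e = e := by
  have h' : e ∈ Submodule.span K (Set.range (T.cl X a)) := h
  induction h' using Submodule.span_induction with
  | mem x hx =>
    obtain ⟨z, rfl⟩ := hx
    exact hT.frob.cl X a z
  | zero => exact map_zero _
  | add x y hx hy ihx ihy => rw [map_add, ihx hx, ihy hy]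
  | smul a x hx ih => rw [map_smul, ih hx]

theorem tfae_divisors (hT : T.IsBorelMoore) (hF : HypersurfaceModels F) {S : Var F → Prop}
    (hS : T.Dominating S 1 2) (hM : T.TateSemisimple S 1 2 → T.TateForDivisors S) :
    [T.NoGenericInvariants (affineSpace F 3) 3 1, T.FunctionFields 1 2,
      T.TateForDivisors S].TFAE := by
  have h := tfae_main hT hF 1 2 S hS
  tfae_have 1 ↔ 2 := rational_iff.symm.trans (h.out 0 1)
  tfae_have 2 ↔ 3 := by
    rw [show T.FunctionFields 1 2 ↔ T.TateSemisimple S 1 2 from h.out 1 3]
    refine ⟨hM, ?_⟩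
    intro h' X hX hd
    rcases dim_cases hd with h1 | h1
    · refine ⟨fun e he => ?_, fun e he => ?_⟩
      · exact hT.classical.top X 1 h1 e (inv_gen he)
      · exact semisimple_of_algebraic hT (hT.classical.top X 1 h1 e he)
    · exact h' X hX 1 h1 X rfl hd
  tfae_finish

end Theory

end Pool.Agent.R905.RF
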